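import Mathlib
import Pool.Agent.TH562.TW.Arith
import Pool.Agent.TH562.TW.BadE

set_option autoImplicit false

/-!
# Bad pairs in a family of rows
-/

namespace Pool.Agent.TH861.TW

open Finset Pool.Agent.TH562.TW

/-- a family of rows `Row l`, `l ∈ Ls` -/
structure Dat (A B : ℤ) (Q a W : ℕ) (T : Finset (ℕ × ℕ)) (lam LL : ℝ) (V S X2 X4 : ℕ) : Prop where
  hQ : 0 < Q
  hW : 1 ≤ W
  apos : 0 < a
  hQW : ∀ p : ℕ, p.Prime → W < p → ¬ p ∣ Q
  hQW' : ∀ p : ℕ, p.Prime → p ≤ W → p ∣ Q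
  hdisc : ∀ p : ℕ, p.Prime → W < p → ¬ (p : ℤ) ∣ 4 * A ^ 3 + 27 * B ^ 2
  lam0 : 0 ≤ lam
  LL0 : 0 ≤ LL
  row : ∀ l : ℕ, ∃ lo : ℝ, ∀ x ∈ T, x.2 = l → lo ≤ (x.1 : ℝ) ∧ (x.1 : ℝ) ≤ lo + lam
  col : ∃ lo : ℝ, ∀ x ∈ T, lo ≤ (x.2 : ℝ) ∧ (x.2 : ℝ) ≤ lo + LL
  hV : ∀ x ∈ T, a + Q * x.2 ≤ V
  hV2 : V < (X2 + 1) ^ 2
  hS : ∀ x ∈ T, 1 + Q * x.1 ≤ S
  hvs : ∀ x ∈ T, a + Q * x.2 ≤ 1 + Q * x.1
  hG : ∀ x ∈ T, 0 < GZ A B 0 (1 + Q * x.1) (a + Q * x.2) ∧
    GZ A B 0 (1 + Q * x.1) (a + Q * x.2) < ((X4 + 1) ^ 2 : ℕ)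

section
variable {A B : ℤ} {Q a W : ℕ} {T : Finset (ℕ × ℕ)} {lam LL : ℝ} {V S X2 X4 : ℕ}

theorem Dat.sub_card (d : Dat A B Q a W T lam LL V S X2 X4) {T' : Finset (ℕ × ℕ)} (hT : T' ⊆ T)
    {d1 d2 : ℕ} (hd1 : 0 < d1) (hd2 : 0 < d2)
    (h1 : ∀ x ∈ T', ∀ y ∈ T', x.2 = y.2 → (d1 : ℤ) ∣ (x.1 : ℤ) - y.1)
    (h2 : ∀ x ∈ T', ∀ y ∈ T', (d2 : ℤ) ∣ (x.2 : ℤ) - y.2) :
    (T'.card : ℝ) ≤ (LL / d2 + 1) * (lam / d1 + 1) := by
  classical
  have hd1' : (0 : ℝ) < d1 := by exact_mod_cast hd1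
  have hd2' : (0 : ℝ) < d2 := by exact_mod_cast hd2
  have g1 := card_fib T' (fun x => x.2) (lam / d1 + 1) (by
    intro l _
    obtain ⟨lo, hlo⟩ := d.row l
    refine card_spaced _ (fun x => (x.1 : ℝ)) (a := lo) (L := lam) hd1' d.lam0 ?_ ?_
    · intro x hx
      obtain ⟨hx1, hx2⟩ := Finset.mem_filter.1 hx
      exact hlo x (hT hx1) hx2
    · intro x hx y hy hne
      obtain ⟨hx1, hx2⟩ := Finset.mem_filter.1 hx
      obtain ⟨hy1, hy2⟩ := Finset.mem_filter.1 hy
      apply gap_of_dvd _ (h1 x hx1 y hy1 (hx2.trans hy2.symm))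
      intro h
      exact hne (Prod.ext h (hx2.trans hy2.symm)))
  have g2 : ((T'.image fun x => x.2).card : ℝ) ≤ LL / d2 + 1 := by
    obtain ⟨lo, hlo⟩ := d.col
    refine card_spaced _ (fun l : ℕ => (l : ℝ)) (a := lo) (L := LL) hd2' d.LL0 ?_ ?_
    · intro l hl
      obtain ⟨x, hx, rfl⟩ := Finset.mem_image.1 hl
      exact hlo x (hT hx)
    · intro l hl l' hl' hne
      obtain ⟨x, hx, rfl⟩ := Finset.mem_image.1 hl
      obtain ⟨y, hy, rfl⟩ := Finset.mem_image.1 hl'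
      exact gap_of_dvd hne (h2 x hx y hy)
  refine g1.trans (mul_le_mul_of_nonneg_right g2 ?_)
  have := d.lam0
  positivity

open Classical in
theorem Dat.bad_count (d : Dat A B Q a W T lam LL V S X2 X4) {K : ℕ} (hWK : W ≤ K) :
    ((T.filter fun x => ¬ GoodT A B 0 Q a W x).card : ℝ) ≤
      (LL * lam / W + (LL + lam) * (1 + Real.log V) + V) + (lam + 1) * (LL / W + X2) +
      3 * ((LL + 1) * (lam / W + Nat.primeCounting K)) +
      3 * ((S : ℝ) ^ 2 / K + Nat.primeCounting X4) := by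
  have hQ := d.hQ
  have hW := d.hW
  have hW' : (0 : ℝ) < W := by exact_mod_cast hW
  have hK : 1 ≤ K := hW.trans hWK
  have hK' : (0 : ℝ) < K := by exact_mod_cast hK
  have hQ' : (0 : ℝ) < Q := by exact_mod_cast hQ
  have lam0 := d.lam0
  have LL0 := d.LL0
  set T1 : ℕ → Finset (ℕ × ℕ) := fun p => T.filter fun x => p ∣ 1 + Q * x.1 ∧ p ∣ a + Q * x.2
    with hT1
  set T2 : ℕ → Finset (ℕ × ℕ) := fun p => T.filter fun x => p ^ 2 ∣ a + Q * x.2 with hT2
  set T3 : ℕ → Finset (ℕ × ℕ) := fun p => T.filter fun x =>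
    Nat.Coprime (1 + Q * x.1) (a + Q * x.2) ∧
      ((p ^ 2 : ℕ) : ℤ) ∣ GZ A B 0 (1 + Q * x.1) (a + Q * x.2) with hT3
  have hsub : (T.filter fun x => ¬ GoodT A B 0 Q a W x) ⊆
      (((Pr W V).biUnion T1 ∪ (Pr W X2).biUnion T2) ∪ (Pr W K).biUnion T3) ∪
        (Pr K X4).biUnion T3 := by
    intro x hx
    obtain ⟨hxT, hbad⟩ := Finset.mem_filter.1 hx
    by_cases hcop : Nat.Coprime (1 + Q * x.1) (a + Q * x.2)
    · unfold GoodT at hbad
      push Not at hbad
      obtain ⟨p, hp, hpW, hpd⟩ := hbad hcop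
      by_cases hpv : p ^ 2 ∣ a + Q * x.2
      · refine Finset.mem_union_left _ (Finset.mem_union_left _ (Finset.mem_union_right _ ?_))
        refine Finset.mem_biUnion.2 ⟨p, mem_Pr.2 ⟨⟨hpW, ?_⟩, hp⟩, Finset.mem_filter.2 ⟨hxT, hpv⟩⟩
        have h1 := Nat.le_of_dvd (by have := d.apos; omega) hpv
        have h2 := d.hV x hxT
        have h2' := d.hV2
        have h3 : p ^ 2 < (X2 + 1) ^ 2 := by omega
        have h4 : p < X2 + 1 := lt_of_pow_lt_pow_left₀ 2 (by omega) h3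
        omega
      · have hpG := hpd hpv
        rcases le_or_gt p K with hpK | hpK
        · refine Finset.mem_union_left _ (Finset.mem_union_right _ ?_)
          exact Finset.mem_biUnion.2 ⟨p, mem_Pr.2 ⟨⟨hpW, hpK⟩, hp⟩,
            Finset.mem_filter.2 ⟨hxT, hcop, hpG⟩⟩
        · refine Finset.mem_union_right _ ?_
          refine Finset.mem_biUnion.2 ⟨p, mem_Pr.2 ⟨⟨hpK, ?_⟩, hp⟩,
            Finset.mem_filter.2 ⟨hxT, hcop, hpG⟩⟩
          obtain ⟨h1, h2⟩ := d.hG x hxT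
          have h3 := Int.le_of_dvd h1 hpG
          have h4 : ((p ^ 2 : ℕ) : ℤ) < ((X4 + 1) ^ 2 : ℕ) := lt_of_le_of_lt h3 h2
          have h5 : p ^ 2 < (X4 + 1) ^ 2 := by exact_mod_cast h4
          have h6 : p < X4 + 1 := lt_of_pow_lt_pow_left₀ 2 (by omega) h5
          omega
    · refine Finset.mem_union_left _ (Finset.mem_union_left _ (Finset.mem_union_left _ ?_))
      obtain ⟨p, hp, h1, h2⟩ := Nat.Prime.not_coprime_iff_dvd.1 hcop
      have hpW : W < p := by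
        by_contra hcon
        push Not at hcon
        have h3 := d.hQW' p hp hcon
        have h4 : p ∣ 1 := (Nat.dvd_add_left (Dvd.dvd.mul_right h3 x.1)).1 h1
        exact hp.one_lt.ne' (Nat.dvd_one.1 h4)
      refine Finset.mem_biUnion.2 ⟨p, mem_Pr.2 ⟨⟨hpW, ?_⟩, hp⟩, Finset.mem_filter.2 ⟨hxT, h1, h2⟩⟩
      exact (Nat.le_of_dvd (by have := d.apos; omega) h2).trans (d.hV x hxT)
  have bi : ∀ (F : Finset ℕ) (T : ℕ → Finset (ℕ × ℕ)) (b : ℕ → ℝ),
      (∀ p ∈ F, ((T p).card : ℝ) ≤ b p) → ((F.biUnion T).card : ℝ) ≤ ∑ p ∈ F, b p := by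
    intro F T b hb
    have h1 : ((F.biUnion T).card : ℝ) ≤ ∑ p ∈ F, ((T p).card : ℝ) := by
      exact_mod_cast (Finset.card_biUnion_le : (F.biUnion T).card ≤ ∑ p ∈ F, (T p).card)
    exact h1.trans (Finset.sum_le_sum hb)
  have hpp : ∀ {w X p : ℕ}, p ∈ Pr w X → 0 < (p : ℝ) := by
    intro w X p hp
    have := (mem_Pr.1 hp).2.pos
    exact_mod_cast this
  have subQ : ∀ {p k : ℕ} (c : ℕ), p.Prime → ¬ p ∣ Q → ∀ {u v : ℕ}, p ^ k ∣ c + Q * u →
      p ^ k ∣ c + Q * v → ((p ^ k : ℕ) : ℤ) ∣ (u : ℤ) - v := by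
    intro p k c hp hpQ u v hu hv
    have h3 : ((p ^ k : ℕ) : ℤ) ∣ (Q : ℤ) * ((u : ℤ) - v) := by
      have e : (Q : ℤ) * ((u : ℤ) - v) =
          ((c + Q * u : ℕ) : ℤ) - ((c + Q * v : ℕ) : ℤ) := by push_cast; ring
      rw [e]
      exact dvd_sub (Int.natCast_dvd_natCast.2 hu) (Int.natCast_dvd_natCast.2 hv)
    exact cop_cancel hp hpQ h3
  have c1 : (((Pr W V).biUnion T1).card : ℝ) ≤
      LL * lam / W + (LL + lam) * (1 + Real.log V) + V := by
    refine (bi _ _ (fun p => (LL / p + 1) * (lam / p + 1)) ?_).trans ?_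
    · intro p hp
      obtain ⟨⟨hpW, _⟩, hpp'⟩ := mem_Pr.1 hp
      have hpQ := d.hQW p hpp' hpW
      refine d.sub_card (T' := T1 p) (Finset.filter_subset _ _) hpp'.pos hpp'.pos ?_ ?_
      · intro x hx y hy _
        have h1 := (Finset.mem_filter.1 hx).2.1
        have h2 := (Finset.mem_filter.1 hy).2.1
        have := subQ (k := 1) 1 hpp' hpQ (by rwa [pow_one]) (by rwa [pow_one]) (u := x.1)
          (v := y.1)
        rwa [pow_one] at this
      · intro x hx y hy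
        have h1 := (Finset.mem_filter.1 hx).2.2
        have h2 := (Finset.mem_filter.1 hy).2.2
        have := subQ (k := 1) a hpp' hpQ (by rwa [pow_one]) (by rwa [pow_one]) (u := x.2)
          (v := y.2)
        rwa [pow_one] at this
    · have e : ∑ p ∈ Pr W V, (LL / p + 1) * (lam / p + 1) =
          LL * lam * ∑ p ∈ Pr W V, 1 / ((p : ℝ) ^ 2) +
          (LL + lam) * ∑ p ∈ Pr W V, 1 / (p : ℝ) + (Pr W V).card := by
        have : ((Pr W V).card : ℝ) = ∑ p ∈ Pr W V, (1 : ℝ) := by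
          rw [Finset.sum_const, nsmul_eq_mul, mul_one]
        rw [this, Finset.mul_sum, Finset.mul_sum, ← Finset.sum_add_distrib,
          ← Finset.sum_add_distrib]
        refine Finset.sum_congr rfl fun p hp => ?_
        have := hpp hp
        field_simp
        ring
      rw [e]
      have h1 := mul_le_mul_of_nonneg_left (Pr_sq W V hW) (by positivity : (0 : ℝ) ≤ LL * lam)
      have h2 := mul_le_mul_of_nonneg_left (Pr_inv W V hW) (by positivity : (0 : ℝ) ≤ LL + lam)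
      have h3 : ((Pr W V).card : ℝ) ≤ V := by
        have : (Pr W V).card ≤ V := by
          calc (Pr W V).card ≤ (Ioc W V).card := Finset.card_filter_le _ _
            _ = V - W := Nat.card_Ioc _ _
            _ ≤ V := Nat.sub_le _ _
        exact_mod_cast this
      have h4 : LL * lam * (1 / W) = LL * lam / W := by ring
      linarith
  have c2 : (((Pr W X2).biUnion T2).card : ℝ) ≤ (lam + 1) * (LL / W + X2) := by
    refine (bi _ _ (fun p => (lam + 1) * (LL / (p : ℝ) ^ 2 + 1)) ?_).trans ?_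
    · intro p hp
      obtain ⟨⟨hpW, _⟩, hpp'⟩ := mem_Pr.1 hp
      have hpQ := d.hQW p hpp' hpW
      have h := d.sub_card (T' := T2 p) (Finset.filter_subset _ _) (d1 := 1) (d2 := p ^ 2)
        one_pos (pow_pos hpp'.pos 2) (fun x _ y _ _ => by simp) (fun x hx y hy =>
          subQ a hpp' hpQ (Finset.mem_filter.1 hx).2 (Finset.mem_filter.1 hy).2)
      push_cast at h
      rw [div_one] at h
      linarith
    · rw [← Finset.mul_sum]
      refine mul_le_mul_of_nonneg_left ?_ (by linarith)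
      have e : ∑ p ∈ Pr W X2, (LL / (p : ℝ) ^ 2 + 1) =
          LL * ∑ p ∈ Pr W X2, 1 / ((p : ℝ) ^ 2) + (Pr W X2).card := by
        have : ((Pr W X2).card : ℝ) = ∑ p ∈ Pr W X2, (1 : ℝ) := by
          rw [Finset.sum_const, nsmul_eq_mul, mul_one]
        rw [this, Finset.mul_sum, ← Finset.sum_add_distrib]
        refine Finset.sum_congr rfl fun p hp => ?_
        ring
      rw [e]
      have h1 := mul_le_mul_of_nonneg_left (Pr_sq W X2 hW) LL0
      have h3 : ((Pr W X2).card : ℝ) ≤ X2 := by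
        have : (Pr W X2).card ≤ X2 := by
          calc (Pr W X2).card ≤ (Ioc W X2).card := Finset.card_filter_le _ _
            _ = X2 - W := Nat.card_Ioc _ _
            _ ≤ X2 := Nat.sub_le _ _
        exact_mod_cast this
      have h4 : LL * (1 / W) = LL / W := by ring
      linarith
  have hvp : ∀ {x : ℕ × ℕ} {p : ℕ}, p.Prime → Nat.Coprime (1 + Q * x.1) (a + Q * x.2) →
      ((p ^ 2 : ℕ) : ℤ) ∣ GZ A B 0 (1 + Q * x.1) (a + Q * x.2) → ¬ p ∣ a + Q * x.2 := by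
    intro x p hp hcop hG hv
    have hp1 : (p : ℤ) ∣ GZ A B 0 (1 + Q * x.1) (a + Q * x.2) := by
      refine dvd_trans ?_ hG
      push_cast
      exact dvd_pow_self _ two_ne_zero
    have hvZ : (p : ℤ) ∣ ((a + Q * x.2 : ℕ) : ℤ) := Int.natCast_dvd_natCast.2 hv
    unfold GZ at hp1
    have h1 : (p : ℤ) ∣ (((1 + Q * x.1 : ℕ) : ℤ)) ^ 3 := by
      have e : (((1 + Q * x.1 : ℕ) : ℤ)) ^ 3 =
        ((((1 + Q * x.1 : ℕ) : ℤ) - (0 : ℕ) * ((a + Q * x.2 : ℕ) : ℤ)) ^ 3 +
          A * (((1 + Q * x.1 : ℕ) : ℤ) - (0 : ℕ) * ((a + Q * x.2 : ℕ) : ℤ)) *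
            ((a + Q * x.2 : ℕ) : ℤ) ^ 2 + B * ((a + Q * x.2 : ℕ) : ℤ) ^ 3) -
        ((a + Q * x.2 : ℕ) : ℤ) * (A * (((1 + Q * x.1 : ℕ) : ℤ)) *
            ((a + Q * x.2 : ℕ) : ℤ) + B * ((a + Q * x.2 : ℕ) : ℤ) ^ 2) := by push_cast; ring
      rw [e]
      exact dvd_sub hp1 (Dvd.dvd.mul_right hvZ _)
    have h2 : (p : ℤ) ∣ ((1 + Q * x.1 : ℕ) : ℤ) := (Nat.prime_iff_prime_int.1 hp).dvd_of_dvd_pow h1
    have h3 : p ∣ 1 + Q * x.1 := Int.natCast_dvd_natCast.1 h2
    exact hp.one_lt.ne' (Nat.Coprime.eq_one_of_dvd (hcop.coprime_dvd_left h3) hv)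
  have c3 : (((Pr W K).biUnion T3).card : ℝ) ≤
      3 * ((LL + 1) * (lam / W + Nat.primeCounting K)) := by
    refine (bi _ _ (fun p => 3 * ((LL + 1) * (lam / (p : ℝ) ^ 2 + 1))) ?_).trans ?_
    · intro p hp
      obtain ⟨⟨hpW, _⟩, hpp'⟩ := mem_Pr.1 hp
      have hpQ := d.hQW p hpp' hpW
      refine card_color hpp' (d.hdisc p hpp' hpW) (T3 p) (fun x => 1 + Q * x.1)
        (fun x => a + Q * x.2) (m := 0) ?_ _ ?_
      · intro x hx
        obtain ⟨_, h1, h2⟩ := Finset.mem_filter.1 hx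
        exact ⟨h2, hvp hpp' h1 h2⟩
      · intro T' hT' hpair
        have h := d.sub_card (T' := T') (hT'.trans (Finset.filter_subset _ _)) (d1 := p ^ 2)
          (d2 := 1) (pow_pos hpp'.pos 2) one_pos
          (fun x hx y hy hxy => by
            have h1 := hpair x hx y hy
            have hxm := Finset.mem_filter.1 (hT' hx)
            have hv := hvp hpp' hxm.2.1 hxm.2.2
            have h2 : ((p ^ 2 : ℕ) : ℤ) ∣ ((a + Q * x.2 : ℕ) : ℤ) * ((Q : ℤ) * ((x.1 : ℤ) - y.1)) := by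
              have e : ((a + Q * x.2 : ℕ) : ℤ) * ((Q : ℤ) * ((x.1 : ℤ) - y.1)) =
                ((1 + Q * x.1 : ℕ) : ℤ) * ((a + Q * y.2 : ℕ) : ℤ) -
                  ((1 + Q * y.1 : ℕ) : ℤ) * ((a + Q * x.2 : ℕ) : ℤ) := by
                rw [hxy]; push_cast; ring
              rw [e]; exact h1
            have h3 : ((p ^ 2 : ℕ) : ℤ) ∣ (Q : ℤ) * ((x.1 : ℤ) - y.1) := cop_cancel hpp' hv h2
            exact cop_cancel hpp' hpQ h3)
          (fun x _ y _ => by simp)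
        push_cast at h
        rw [div_one] at h
        exact h
    · have e : ∑ p ∈ Pr W K, 3 * ((LL + 1) * (lam / (p : ℝ) ^ 2 + 1)) =
          3 * ((LL + 1) * (lam * ∑ p ∈ Pr W K, 1 / ((p : ℝ) ^ 2) + (Pr W K).card)) := by
        have : ((Pr W K).card : ℝ) = ∑ p ∈ Pr W K, (1 : ℝ) := by
          rw [Finset.sum_const, nsmul_eq_mul, mul_one]
        rw [this, Finset.mul_sum, ← Finset.sum_add_distrib, Finset.mul_sum, Finset.mul_sum]
        refine Finset.sum_congr rfl fun p hp => ?_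
        ring
      rw [e]
      have h1 := mul_le_mul_of_nonneg_left (Pr_sq W K hW) lam0
      have h2 := Pr_card W K
      have h4 : lam * (1 / W) = lam / W := by ring
      have h5 : lam * ∑ p ∈ Pr W K, 1 / ((p : ℝ) ^ 2) + (Pr W K).card ≤
          lam / W + Nat.primeCounting K := by linarith
      have h6 := mul_le_mul_of_nonneg_left h5 (by linarith : (0 : ℝ) ≤ LL + 1)
      linarith
  have c4 : (((Pr K X4).biUnion T3).card : ℝ) ≤
      3 * ((S : ℝ) ^ 2 / K + Nat.primeCounting X4) := by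
    refine (bi _ _ (fun p => 3 * ((S : ℝ) ^ 2 * (1 / (p : ℝ) ^ 2) + 1)) ?_).trans ?_
    · intro p hp
      obtain ⟨⟨hpK, _⟩, hpp'⟩ := mem_Pr.1 hp
      have hp0 : (0 : ℝ) < p := by exact_mod_cast hpp'.pos
      have hpW : W < p := lt_of_le_of_lt hWK hpK
      have hpQ := d.hQW p hpp' hpW
      refine card_color hpp' (d.hdisc p hpp' hpW) (T3 p) (fun x => 1 + Q * x.1)
        (fun x => a + Q * x.2) (m := 0) ?_ _ ?_
      · intro x hx
        obtain ⟨_, h1, h2⟩ := Finset.mem_filter.1 hx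
        exact ⟨h2, hvp hpp' h1 h2⟩
      · intro T' hT' hpair
        rcases T'.eq_empty_or_nonempty with he | hne
        · rw [he, Finset.card_empty]
          push_cast
          positivity
        have hSpos : (0 : ℝ) < S := by
          obtain ⟨x, hx⟩ := hne
          have := d.hS x (Finset.mem_filter.1 (hT' hx)).1
          have h2 : 0 < S := by omega
          exact_mod_cast h2
        have h := card_spaced T' (fun x => ((a + Q * x.2 : ℕ) : ℝ) / ((1 + Q * x.1 : ℕ) : ℝ))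
          (a := 0) (L := 1) (ε := (p : ℝ) ^ 2 / S ^ 2) (by positivity)
          (by positivity) (by
            intro x hx
            have h1 := (Finset.mem_filter.1 (hT' hx)).1
            have hs : (0 : ℝ) < ((1 + Q * x.1 : ℕ) : ℝ) := by positivity
            constructor
            · positivity
            · rw [zero_add, div_le_one hs]
              exact_mod_cast d.hvs x h1) (by
            intro x hx y hy hne
            obtain ⟨hx1, hx3, hx4⟩ := Finset.mem_filter.1 (hT' hx)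
            obtain ⟨hy1, hy3, hy4⟩ := Finset.mem_filter.1 (hT' hy)
            have hsx : (0 : ℝ) < ((1 + Q * x.1 : ℕ) : ℝ) := by positivity
            have hsy : (0 : ℝ) < ((1 + Q * y.1 : ℕ) : ℝ) := by positivity
            have hsxS : ((1 + Q * x.1 : ℕ) : ℝ) ≤ S := by
              exact_mod_cast d.hS x hx1
            have hsyS : ((1 + Q * y.1 : ℕ) : ℝ) ≤ S := by
              exact_mod_cast d.hS y hy1
            have hdet := hpair x hx y hy
            have hdet0 : ((1 + Q * x.1 : ℕ) : ℤ) * ((a + Q * y.2 : ℕ) : ℤ) -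
                ((1 + Q * y.1 : ℕ) : ℤ) * ((a + Q * x.2 : ℕ) : ℤ) ≠ 0 := by
              intro h0
              have h1 : (1 + Q * x.1) * (a + Q * y.2) = (1 + Q * y.1) * (a + Q * x.2) := by
                exact_mod_cast sub_eq_zero.1 h0
              have h2 : (1 + Q * x.1) ∣ (1 + Q * y.1) :=
                hx3.dvd_of_dvd_mul_right ⟨a + Q * y.2, h1.symm⟩
              have h3 : (1 + Q * y.1) ∣ (1 + Q * x.1) :=
                hy3.dvd_of_dvd_mul_right ⟨a + Q * x.2, h1⟩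
              have h4 := Nat.dvd_antisymm h2 h3
              have h5 : a + Q * y.2 = a + Q * x.2 := by
                rw [h4] at h1
                exact Nat.eq_of_mul_eq_mul_left (by omega) h1
              have h6 : x.1 = y.1 := Nat.eq_of_mul_eq_mul_left hQ (by omega)
              have h7 : x.2 = y.2 := Nat.eq_of_mul_eq_mul_left hQ (by omega)
              exact hne (Prod.ext h6 h7)
            have hdetle : ((p : ℝ)) ^ 2 ≤ |((1 + Q * x.1 : ℕ) : ℝ) * ((a + Q * y.2 : ℕ) : ℝ) -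
                ((1 + Q * y.1 : ℕ) : ℝ) * ((a + Q * x.2 : ℕ) : ℝ)| := by
              have h1 := Int.le_of_dvd (abs_pos.2 hdet0) ((dvd_abs _ _).2 hdet)
              have h2 : (((p ^ 2 : ℕ) : ℤ) : ℝ) ≤
                ((|((1 + Q * x.1 : ℕ) : ℤ) * ((a + Q * y.2 : ℕ) : ℤ) -
                ((1 + Q * y.1 : ℕ) : ℤ) * ((a + Q * x.2 : ℕ) : ℤ)| : ℤ) : ℝ) := by
                exact_mod_cast h1
              push_cast at h2 ⊢
              exact h2
            have e : ((a + Q * x.2 : ℕ) : ℝ) / ((1 + Q * x.1 : ℕ) : ℝ) -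
                ((a + Q * y.2 : ℕ) : ℝ) / ((1 + Q * y.1 : ℕ) : ℝ) =
                -(((1 + Q * x.1 : ℕ) : ℝ) * ((a + Q * y.2 : ℕ) : ℝ) -
                ((1 + Q * y.1 : ℕ) : ℝ) * ((a + Q * x.2 : ℕ) : ℝ)) /
                (((1 + Q * x.1 : ℕ) : ℝ) * ((1 + Q * y.1 : ℕ) : ℝ)) := by
              rw [div_sub_div _ _ hsx.ne' hsy.ne']
              congr 1
              ring
            rw [e, abs_div, abs_neg, abs_of_pos (mul_pos hsx hsy)]
            apply div_le_div₀ (abs_nonneg _) hdetle (mul_pos hsx hsy)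
            rw [pow_two]
            exact mul_le_mul hsxS hsyS hsy.le hSpos.le)
        refine h.trans (le_of_eq ?_)
        field_simp
    · have e : ∑ p ∈ Pr K X4, 3 * ((S : ℝ) ^ 2 * (1 / (p : ℝ) ^ 2) + 1) =
          3 * ((S : ℝ) ^ 2 * ∑ p ∈ Pr K X4, 1 / ((p : ℝ) ^ 2) + (Pr K X4).card) := by
        have : ((Pr K X4).card : ℝ) = ∑ p ∈ Pr K X4, (1 : ℝ) := by
          rw [Finset.sum_const, nsmul_eq_mul, mul_one]
        rw [this, Finset.mul_sum, ← Finset.sum_add_distrib, Finset.mul_sum]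
      rw [e]
      have h1 := mul_le_mul_of_nonneg_left (Pr_sq K X4 hK) (by positivity : (0 : ℝ) ≤ (S : ℝ) ^ 2)
      have h2 := Pr_card K X4
      have h4 : (S : ℝ) ^ 2 * (1 / K) = (S : ℝ) ^ 2 / K := by ring
      linarith
  have hcard : ((T.filter fun x => ¬ GoodT A B 0 Q a W x).card : ℝ) ≤
      (((Pr W V).biUnion T1).card : ℝ) + ((Pr W X2).biUnion T2).card +
        ((Pr W K).biUnion T3).card + ((Pr K X4).biUnion T3).card := by
    have h1 := Finset.card_le_card hsub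
    have h2 := Finset.card_union_le
      (((Pr W V).biUnion T1 ∪ (Pr W X2).biUnion T2) ∪ (Pr W K).biUnion T3)
      ((Pr K X4).biUnion T3)
    have h3 := Finset.card_union_le
      ((Pr W V).biUnion T1 ∪ (Pr W X2).biUnion T2) ((Pr W K).biUnion T3)
    have h4 := Finset.card_union_le ((Pr W V).biUnion T1) ((Pr W X2).biUnion T2)
    have h6 : (T.filter fun x => ¬ GoodT A B 0 Q a W x).card ≤
      ((Pr W V).biUnion T1).card + ((Pr W X2).biUnion T2).card +
        ((Pr W K).biUnion T3).card + ((Pr K X4).biUnion T3).card := by omega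
    exact_mod_cast h6
  linarith

end

end Pool.Agent.TH861.TW
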