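import Mathlib

set_option autoImplicit false

/-!
# The quartic form `v (s ^ 3 + A s v ^ 2 + B v ^ 3)` for `v` small compared with `s`
-/

namespace Pool.Agent.TH861.TW

def fR (A B v s : ℝ) : ℝ := v * (s ^ 3 + A * s * v ^ 2 + B * v ^ 3)

section
variable {A B κ v s t : ℝ}

theorem small_terms (hκ : 0 < κ) (hA : |A| * κ ^ 2 ≤ 1 / 4) (hB : |B| * κ ^ 3 ≤ 1 / 4)
    (hv : 0 < v) (hvs : v ≤ κ * s) : 0 < s ∧ |A * v ^ 2| ≤ s ^ 2 / 4 ∧ |B * v ^ 3| ≤ s ^ 3 / 4 := by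
  have hs : 0 < s := by
    by_contra h
    push Not at h
    have : κ * s ≤ 0 := mul_nonpos_of_nonneg_of_nonpos hκ.le h
    linarith
  have h2 : v ^ 2 ≤ (κ * s) ^ 2 := pow_le_pow_left₀ hv.le hvs 2
  have h3 : v ^ 3 ≤ (κ * s) ^ 3 := pow_le_pow_left₀ hv.le hvs 3
  refine ⟨hs, ?_, ?_⟩
  · rw [abs_mul, abs_of_pos (pow_pos hv 2)]
    calc |A| * v ^ 2 ≤ |A| * (κ * s) ^ 2 := mul_le_mul_of_nonneg_left h2 (abs_nonneg A)
      _ = |A| * κ ^ 2 * s ^ 2 := by ring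
      _ ≤ 1 / 4 * s ^ 2 := mul_le_mul_of_nonneg_right hA (by positivity)
      _ = s ^ 2 / 4 := by ring
  · rw [abs_mul, abs_of_pos (pow_pos hv 3)]
    calc |B| * v ^ 3 ≤ |B| * (κ * s) ^ 3 := mul_le_mul_of_nonneg_left h3 (abs_nonneg B)
      _ = |B| * κ ^ 3 * s ^ 3 := by ring
      _ ≤ 1 / 4 * s ^ 3 := mul_le_mul_of_nonneg_right hB (by positivity)
      _ = s ^ 3 / 4 := by ring

theorem cub_bounds (hκ : 0 < κ) (hA : |A| * κ ^ 2 ≤ 1 / 4) (hB : |B| * κ ^ 3 ≤ 1 / 4)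
    (hv : 0 < v) (hvs : v ≤ κ * s) : s ^ 3 / 2 ≤ s ^ 3 + A * s * v ^ 2 + B * v ^ 3 ∧
      s ^ 3 + A * s * v ^ 2 + B * v ^ 3 ≤ 3 / 2 * s ^ 3 := by
  obtain ⟨hs, h1, h2⟩ := small_terms hκ hA hB hv hvs
  rw [abs_le] at h1 h2
  have e : A * s * v ^ 2 = (A * v ^ 2) * s := by ring
  rw [e]
  have h3 : (A * v ^ 2) * s ≤ s ^ 2 / 4 * s := mul_le_mul_of_nonneg_right h1.2 hs.le
  have h4 : -(s ^ 2 / 4) * s ≤ (A * v ^ 2) * s := mul_le_mul_of_nonneg_right h1.1 hs.le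
  have e2 : s ^ 2 / 4 * s = s ^ 3 / 4 := by ring
  have e3 : -(s ^ 2 / 4) * s = -(s ^ 3 / 4) := by ring
  constructor <;> linarith [h2.1, h2.2]

theorem fR_bounds (hκ : 0 < κ) (hA : |A| * κ ^ 2 ≤ 1 / 4) (hB : |B| * κ ^ 3 ≤ 1 / 4)
    (hv : 0 < v) (hvs : v ≤ κ * s) : v * (s ^ 3 / 2) ≤ fR A B v s ∧
      fR A B v s ≤ v * (3 / 2 * s ^ 3) := by
  obtain ⟨h1, h2⟩ := cub_bounds hκ hA hB hv hvs
  exact ⟨mul_le_mul_of_nonneg_left h1 hv.le, mul_le_mul_of_nonneg_left h2 hv.le⟩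

theorem fR_diff (hκ : 0 < κ) (hA : |A| * κ ^ 2 ≤ 1 / 4) (hB : |B| * κ ^ 3 ≤ 1 / 4)
    (hv : 0 < v) (hvs : v ≤ κ * s) (hst : s ≤ t) :
    v * (t - s) * (2 * s ^ 2) ≤ fR A B v t - fR A B v s ∧
      fR A B v t - fR A B v s ≤ v * (t - s) * (4 * t ^ 2) := by
  obtain ⟨hs, h1, _⟩ := small_terms hκ hA hB hv hvs
  rw [abs_le] at h1
  have e : fR A B v t - fR A B v s = v * (t - s) * (t ^ 2 + t * s + s ^ 2 + A * v ^ 2) := by
    unfold fR; ring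
  rw [e]
  have h0 : 0 ≤ v * (t - s) := mul_nonneg hv.le (by linarith)
  have h2 : s ^ 2 ≤ t ^ 2 := pow_le_pow_left₀ hs.le hst 2
  have h3 : s ^ 2 ≤ t * s := by nlinarith
  have h4 : t * s ≤ t ^ 2 := by nlinarith
  have h5 : 0 < s ^ 2 := by positivity
  constructor
  · exact mul_le_mul_of_nonneg_left (by linarith [h1.1]) h0
  · exact mul_le_mul_of_nonneg_left (by linarith [h1.2]) h0

/-- injectivity in `s` -/
theorem fR_inj (hκ : 0 < κ) (hA : |A| * κ ^ 2 ≤ 1 / 4) (hB : |B| * κ ^ 3 ≤ 1 / 4)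
    (hv : 0 < v) (hvs : v ≤ κ * s) (hvt : v ≤ κ * t) (h : fR A B v s = fR A B v t) : s = t := by
  have key : ∀ {s t : ℝ}, v ≤ κ * s → s < t → fR A B v s ≠ fR A B v t := by
    intro s t hvs hst h
    obtain ⟨hs, _, _⟩ := small_terms hκ hA hB hv hvs
    have h1 := (fR_diff hκ hA hB hv hvs hst.le).1
    rw [h, sub_self] at h1
    have h2 : 0 < v * (t - s) * (2 * s ^ 2) := by
      have : 0 < t - s := by linarith
      positivity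
    linarith
  rcases lt_trichotomy s t with h1 | h1 | h1
  · exact absurd h (key hvs h1)
  · exact h1
  · exact absurd h.symm (key hvt h1)

end

/-- the left end of the row -/
theorem exists_root {A B κ κ1 R v : ℝ} (hκ : 0 < κ) (hA : |A| * κ ^ 2 ≤ 1 / 4)
    (hB : |B| * κ ^ 3 ≤ 1 / 4) (hκ1 : 0 < κ1) (hκ2 : 2 * κ1 ≤ κ) (hκ3 : 3 * κ1 ≤ 1)
    (hR : 0 < R) (hv1 : κ1 * R ≤ v) (hv2 : v ≤ 2 * κ1 * R) :
    ∃ σ : ℝ, R ≤ σ ∧ σ ≤ 2 / κ1 * R ∧ fR A B v σ = R ^ 4 := by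
  have hv : 0 < v := lt_of_lt_of_le (by positivity) hv1
  have hvR : v ≤ κ * R := by nlinarith
  have h21 : 1 ≤ 2 / κ1 := by
    rw [le_div_iff₀ hκ1]; linarith
  have hR2 : R ≤ 2 / κ1 * R := by nlinarith
  have hvR2 : v ≤ κ * (2 / κ1 * R) := hvR.trans (mul_le_mul_of_nonneg_left hR2 hκ.le)
  have hcont : ContinuousOn (fun s => fR A B v s) (Set.Icc R (2 / κ1 * R)) := by
    unfold fR
    fun_prop
  have h1 : fR A B v R ≤ R ^ 4 := by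
    have := (fR_bounds hκ hA hB hv hvR).2
    refine this.trans ?_
    have h2 : v * (3 / 2 * R ^ 3) ≤ (2 * κ1 * R) * (3 / 2 * R ^ 3) :=
      mul_le_mul_of_nonneg_right hv2 (by positivity)
    have h3 : (2 * κ1 * R) * (3 / 2 * R ^ 3) = (3 * κ1) * R ^ 4 := by ring
    rw [h3] at h2
    refine h2.trans ?_
    have : (3 * κ1) * R ^ 4 ≤ 1 * R ^ 4 := mul_le_mul_of_nonneg_right hκ3 (by positivity)
    linarith
  have h2 : R ^ 4 ≤ fR A B v (2 / κ1 * R) := by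
    have := (fR_bounds hκ hA hB hv hvR2).1
    refine le_trans ?_ this
    have h2 : (κ1 * R) * ((2 / κ1 * R) ^ 3 / 2) ≤ v * ((2 / κ1 * R) ^ 3 / 2) :=
      mul_le_mul_of_nonneg_right hv1 (by positivity)
    refine le_trans ?_ h2
    have h3 : (κ1 * R) * ((2 / κ1 * R) ^ 3 / 2) = (2 / κ1) ^ 2 * R ^ 4 := by
      field_simp
    rw [h3]
    have h4 : (1 : ℝ) ≤ (2 / κ1) ^ 2 := one_le_pow₀ h21
    have h5 : (0 : ℝ) < R ^ 4 := by positivity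
    nlinarith
  obtain ⟨σ, ⟨hσ1, hσ2⟩, hσ⟩ := intermediate_value_Icc hR2 hcont ⟨h1, h2⟩
  exact ⟨σ, hσ1, hσ2, hσ⟩

/-- all values in the row lie in `[X, X + H]` -/
theorem row_values {A B κ κ1 R v σ w H s : ℝ} (hκ : 0 < κ) (hA : |A| * κ ^ 2 ≤ 1 / 4)
    (hB : |B| * κ ^ 3 ≤ 1 / 4) (hκ1 : 0 < κ1) (hκ2 : 2 * κ1 ≤ κ) (hκ3 : 3 * κ1 ≤ 1)
    (hR : 0 < R) (hv1 : κ1 * R ≤ v) (hv2 : v ≤ 2 * κ1 * R) (hσ1 : R ≤ σ)
    (hσ2 : σ ≤ 2 / κ1 * R) (hσ : fR A B v σ = R ^ 4) (hw0 : 0 ≤ w) (hw : w ≤ R)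
    (hwH : 72 * R ^ 3 * w ≤ κ1 * H) (hs1 : σ ≤ s) (hs2 : s ≤ σ + w) :
    R ^ 4 ≤ fR A B v s ∧ fR A B v s ≤ R ^ 4 + H := by
  have hv : 0 < v := lt_of_lt_of_le (by positivity) hv1
  have hvσ : v ≤ κ * σ := by nlinarith
  obtain ⟨h1, h2⟩ := fR_diff hκ hA hB hv hvσ hs1
  have h0 : 0 ≤ v * (s - σ) := mul_nonneg hv.le (by linarith)
  have hσp : 0 < σ := by linarith
  constructor
  · have : 0 ≤ v * (s - σ) * (2 * σ ^ 2) := by positivity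
    linarith
  · have hs3 : s ≤ 3 / κ1 * R := by
      have : R ≤ 1 / κ1 * R := by
        have h11 : 1 ≤ 1 / κ1 := by
          rw [le_div_iff₀ hκ1]; linarith
        nlinarith
      calc s ≤ σ + w := hs2
        _ ≤ 2 / κ1 * R + R := by linarith
        _ ≤ 2 / κ1 * R + 1 / κ1 * R := by linarith
        _ = 3 / κ1 * R := by ring
    have hsp : 0 < s := by linarith
    have h3 : v * (s - σ) * (4 * s ^ 2) ≤ (2 * κ1 * R) * w * (4 * (3 / κ1 * R) ^ 2) := by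
      have h4 : s ^ 2 ≤ (3 / κ1 * R) ^ 2 := pow_le_pow_left₀ hsp.le hs3 2
      have h5 : v * (s - σ) ≤ (2 * κ1 * R) * w :=
        mul_le_mul hv2 (by linarith) (by linarith) (by positivity)
      exact mul_le_mul h5 (by linarith) (by positivity) (by positivity)
    have h6 : (2 * κ1 * R) * w * (4 * (3 / κ1 * R) ^ 2) = 72 * R ^ 3 * w / κ1 := by
      field_simp
      ring
    have h7 : 72 * R ^ 3 * w / κ1 ≤ H := by
      rw [div_le_iff₀ hκ1]; linarith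
    linarith

end Pool.Agent.TH861.TW
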