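import Mathlib
import Pool.Agent.TH861.TW.Bad
import Pool.Agent.TH861.TW.Form

set_option autoImplicit false

/-!
# The family of rows
-/

namespace Pool.Agent.TH861.TW

open Finset Pool.Agent.TH562.TW

theorem PZ_fR (A B : ℤ) (s v : ℕ) : (PZ A B 0 s v : ℝ) = fR A B v s := by
  unfold PZ fR; push_cast; ring

theorem GZ_cub (A B : ℤ) (s v : ℕ) :
    (GZ A B 0 s v : ℝ) = (s : ℝ) ^ 3 + A * s * (v : ℝ) ^ 2 + B * (v : ℝ) ^ 3 := by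
  unfold GZ; push_cast; ring

/-- the row with end point `σ` and length `w` -/
noncomputable def Row (Q : ℕ) (σ w : ℝ) : Finset ℕ :=
  Finset.Icc ⌈(σ - 1) / Q⌉₊ ⌊(σ + w - 1) / Q⌋₊

theorem mem_Row {Q : ℕ} (hQ : 0 < Q) {σ w : ℝ} (hσ : 1 ≤ σ) (hw : 0 ≤ w) {i : ℕ}
    (hi : i ∈ Row Q σ w) :
    (σ - 1) / Q ≤ i ∧ (i : ℝ) ≤ (σ - 1) / Q + w / Q ∧ σ ≤ ((1 + Q * i : ℕ) : ℝ) ∧
      ((1 + Q * i : ℕ) : ℝ) ≤ σ + w := by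
  have hQ' : (0 : ℝ) < Q := by exact_mod_cast hQ
  unfold Row at hi
  rw [Finset.mem_Icc] at hi
  have h1 : (σ - 1) / Q ≤ i := (Nat.le_ceil _).trans (by exact_mod_cast hi.1)
  have h2 : (i : ℝ) ≤ (σ + w - 1) / Q := by
    have h3 : (0 : ℝ) ≤ (σ + w - 1) / Q := div_nonneg (by linarith) hQ'.le
    exact le_trans (by exact_mod_cast hi.2) (Nat.floor_le h3)
  refine ⟨h1, ?_, ?_, ?_⟩
  · have : (σ + w - 1) / Q = (σ - 1) / Q + w / Q := by ring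
    rw [← this]; exact h2
  · rw [div_le_iff₀ hQ'] at h1
    push_cast
    linarith
  · rw [le_div_iff₀ hQ'] at h2
    push_cast
    linarith

theorem card_Row {Q : ℕ} (hQ : 0 < Q) {σ w : ℝ} (hσ : 1 ≤ σ) (hw : 0 ≤ w) :
    w / Q - 1 ≤ ((Row Q σ w).card : ℝ) := by
  have hQ' : (0 : ℝ) < Q := by exact_mod_cast hQ
  unfold Row
  rw [Nat.card_Icc]
  have h1 : (⌈(σ - 1) / Q⌉₊ : ℝ) < (σ - 1) / Q + 1 :=
    Nat.ceil_lt_add_one (div_nonneg (by linarith) hQ'.le)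
  have h2 : (σ + w - 1) / Q < (⌊(σ + w - 1) / Q⌋₊ : ℝ) + 1 := Nat.lt_floor_add_one _
  have h3 : ((⌊(σ + w - 1) / Q⌋₊ + 1 : ℕ) : ℝ) - (⌈(σ - 1) / Q⌉₊ : ℝ) ≤
      ((⌊(σ + w - 1) / Q⌋₊ + 1 - ⌈(σ - 1) / Q⌉₊ : ℕ) : ℝ) := by
    have : ⌊(σ + w - 1) / Q⌋₊ + 1 ≤ (⌊(σ + w - 1) / Q⌋₊ + 1 - ⌈(σ - 1) / Q⌉₊) +
      ⌈(σ - 1) / Q⌉₊ := by omega
    have h4 : ((⌊(σ + w - 1) / Q⌋₊ + 1 : ℕ) : ℝ) ≤
      (((⌊(σ + w - 1) / Q⌋₊ + 1 - ⌈(σ - 1) / Q⌉₊) + ⌈(σ - 1) / Q⌉₊ : ℕ) : ℝ) := by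
      exact_mod_cast this
    push_cast at h4 ⊢
    linarith
  refine le_trans ?_ h3
  push_cast
  have : (σ + w - 1) / Q = (σ - 1) / Q + w / Q := by ring
  linarith

/-- the family -/
noncomputable def Fam (Q : ℕ) (σ : ℕ → ℝ) (w : ℝ) (Ls : Finset ℕ) : Finset (ℕ × ℕ) :=
  (Ls.sigma fun l => Row Q (σ l) w).image fun x => (x.2, x.1)

theorem mem_Fam {Q : ℕ} {σ : ℕ → ℝ} {w : ℝ} {Ls : Finset ℕ} {x : ℕ × ℕ}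
    (hx : x ∈ Fam Q σ w Ls) : x.2 ∈ Ls ∧ x.1 ∈ Row Q (σ x.2) w := by
  unfold Fam at hx
  obtain ⟨y, hy, rfl⟩ := Finset.mem_image.1 hx
  exact Finset.mem_sigma.1 hy

theorem card_Fam {Q : ℕ} (hQ : 0 < Q) {σ : ℕ → ℝ} {w : ℝ} {Ls : Finset ℕ}
    (hσ : ∀ l ∈ Ls, 1 ≤ σ l) (hw : 0 ≤ w) :
    (Ls.card : ℝ) * (w / Q - 1) ≤ ((Fam Q σ w Ls).card : ℝ) := by
  unfold Fam
  rw [Finset.card_image_of_injective, Finset.card_sigma]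
  · push_cast
    rw [← nsmul_eq_mul]
    exact Finset.card_nsmul_le_sum _ _ _ fun l hl => card_Row hQ (hσ l hl) hw
  · rintro ⟨a, b⟩ ⟨c, d⟩ h
    simp only [Prod.mk.injEq] at h
    obtain ⟨rfl, rfl⟩ := h
    rfl

/-- the data for the family -/
theorem dat {A B : ℤ} {Q a W : ℕ} {κ κ1 R w : ℝ} (hQ : 0 < Q) (hW : 1 ≤ W) (apos : 0 < a)
    (hQW : ∀ p : ℕ, p.Prime → W < p → ¬ p ∣ Q)
    (hQW' : ∀ p : ℕ, p.Prime → p ≤ W → p ∣ Q)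
    (hdisc : ∀ p : ℕ, p.Prime → W < p → ¬ (p : ℤ) ∣ 4 * A ^ 3 + 27 * B ^ 2)
    (hκ : 0 < κ) (hA : |(A : ℝ)| * κ ^ 2 ≤ 1 / 4) (hB : |(B : ℝ)| * κ ^ 3 ≤ 1 / 4)
    (hκ1 : 0 < κ1) (hκ2 : 2 * κ1 ≤ κ) (hκ3 : 3 * κ1 ≤ 1) (hR : 1 ≤ R)
    {Ls : Finset ℕ} (hLs : ∀ l ∈ Ls, κ1 * R / Q ≤ l ∧ ((a + Q * l : ℕ) : ℝ) ≤ 2 * κ1 * R)
    {σ : ℕ → ℝ} (hσ : ∀ l ∈ Ls, R ≤ σ l ∧ σ l ≤ 2 / κ1 * R) (hw0 : 0 ≤ w) (hw : w ≤ R) :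
    Dat A B Q a W (Fam Q σ w Ls) (w / Q) (κ1 * R / Q) ⌊2 * κ1 * R⌋₊ ⌊3 / κ1 * R⌋₊
      (Nat.sqrt ⌊2 * κ1 * R⌋₊) (Nat.sqrt (2 * ⌊3 / κ1 * R⌋₊ ^ 3)) := by
  have hQ' : (0 : ℝ) < Q := by exact_mod_cast hQ
  have hR0 : 0 < R := by linarith
  have hk : ∀ x ∈ Fam Q σ w Ls, (σ x.2 - 1) / Q ≤ x.1 ∧ (x.1 : ℝ) ≤ (σ x.2 - 1) / Q + w / Q ∧
      σ x.2 ≤ ((1 + Q * x.1 : ℕ) : ℝ) ∧ ((1 + Q * x.1 : ℕ) : ℝ) ≤ σ x.2 + w := by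
    intro x hx
    obtain ⟨h1, h2⟩ := mem_Fam hx
    exact mem_Row hQ (hR.trans (hσ _ h1).1) hw0 h2
  have hL : ∀ x ∈ Fam Q σ w Ls, κ1 * R / Q ≤ x.2 ∧ ((a + Q * x.2 : ℕ) : ℝ) ≤ 2 * κ1 * R :=
    fun x hx => hLs _ (mem_Fam hx).1
  have hs : ∀ x ∈ Fam Q σ w Ls, R ≤ ((1 + Q * x.1 : ℕ) : ℝ) ∧
      ((1 + Q * x.1 : ℕ) : ℝ) ≤ 3 / κ1 * R := by
    intro x hx
    obtain ⟨h1, h2⟩ := hσ _ (mem_Fam hx).1
    obtain ⟨_, _, h3, h4⟩ := hk x hx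
    refine ⟨h1.trans h3, h4.trans ?_⟩
    have h11 : 1 ≤ 1 / κ1 := by
      rw [le_div_iff₀ hκ1]; linarith
    have : R ≤ 1 / κ1 * R := by nlinarith
    calc σ x.2 + w ≤ 2 / κ1 * R + R := by linarith
      _ ≤ 2 / κ1 * R + 1 / κ1 * R := by linarith
      _ = 3 / κ1 * R := by ring
  have hv : ∀ x ∈ Fam Q σ w Ls, κ1 * R ≤ ((a + Q * x.2 : ℕ) : ℝ) := by
    intro x hx
    have h1 := (hL x hx).1
    rw [div_le_iff₀ hQ'] at h1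
    push_cast
    have : (0 : ℝ) ≤ a := Nat.cast_nonneg a
    linarith
  refine
    { hQ := hQ
      hW := hW
      apos := apos
      hQW := hQW
      hQW' := hQW'
      hdisc := hdisc
      lam0 := by positivity
      LL0 := by positivity
      row := ?_
      col := ?_
      hV := ?_
      hV2 := Nat.lt_succ_sqrt' _
      hS := ?_
      hvs := ?_
      hG := ?_ }
  · intro l
    refine ⟨(σ l - 1) / Q, fun x hx hxl => ?_⟩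
    obtain ⟨h1, h2, _, _⟩ := hk x hx
    rw [hxl] at h1 h2
    exact ⟨h1, h2⟩
  · refine ⟨κ1 * R / Q, fun x hx => ?_⟩
    obtain ⟨h1, h2⟩ := hL x hx
    refine ⟨h1, ?_⟩
    have : κ1 * R / Q + κ1 * R / Q = (2 * κ1 * R) / Q := by ring
    rw [this, le_div_iff₀ hQ']
    push_cast at h2
    have : (0 : ℝ) ≤ a := Nat.cast_nonneg a
    linarith
  · intro x hx
    exact Nat.le_floor (hL x hx).2
  · intro x hx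
    exact Nat.le_floor (hs x hx).2
  · intro x hx
    have h1 := (hL x hx).2
    have h2 := (hs x hx).1
    have h3 : ((a + Q * x.2 : ℕ) : ℝ) ≤ ((1 + Q * x.1 : ℕ) : ℝ) := by
      have : 2 * κ1 * R ≤ R := by nlinarith
      linarith
    exact_mod_cast h3
  · intro x hx
    have hvx := hv x hx
    have hv0 : (0 : ℝ) < ((a + Q * x.2 : ℕ) : ℝ) := lt_of_lt_of_le (by positivity) hvx
    have hsx := (hs x hx).1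
    have hvs : ((a + Q * x.2 : ℕ) : ℝ) ≤ κ * ((1 + Q * x.1 : ℕ) : ℝ) := by
      refine (hL x hx).2.trans ?_
      calc 2 * κ1 * R ≤ κ * R := mul_le_mul_of_nonneg_right hκ2 hR0.le
        _ ≤ κ * ((1 + Q * x.1 : ℕ) : ℝ) := mul_le_mul_of_nonneg_left hsx hκ.le
    obtain ⟨g1, g2⟩ := cub_bounds hκ hA hB hv0 hvs
    rw [← GZ_cub] at g1 g2
    have hs0 : (0 : ℝ) < ((1 + Q * x.1 : ℕ) : ℝ) := by linarith
    constructor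
    · have : (0 : ℝ) < (GZ A B 0 (1 + Q * x.1) (a + Q * x.2) : ℝ) := by
        have : 0 < ((1 + Q * x.1 : ℕ) : ℝ) ^ 3 / 2 := by positivity
        linarith
      exact_mod_cast this
    · have hS : 1 + Q * x.1 ≤ ⌊3 / κ1 * R⌋₊ := Nat.le_floor (hs x hx).2
      have h1 : (GZ A B 0 (1 + Q * x.1) (a + Q * x.2) : ℝ) ≤
          2 * (⌊3 / κ1 * R⌋₊ : ℝ) ^ 3 := by
        have h2 : ((1 + Q * x.1 : ℕ) : ℝ) ^ 3 ≤ (⌊3 / κ1 * R⌋₊ : ℝ) ^ 3 :=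
          pow_le_pow_left₀ hs0.le (by exact_mod_cast hS) 3
        have h3 : (0 : ℝ) < ((1 + Q * x.1 : ℕ) : ℝ) ^ 3 := by positivity
        linarith
      have h2 : GZ A B 0 (1 + Q * x.1) (a + Q * x.2) ≤ ((2 * ⌊3 / κ1 * R⌋₊ ^ 3 : ℕ) : ℤ) := by
        exact_mod_cast h1
      have h3 := Nat.lt_succ_sqrt' (2 * ⌊3 / κ1 * R⌋₊ ^ 3)
      have h4 : ((2 * ⌊3 / κ1 * R⌋₊ ^ 3 : ℕ) : ℤ) <
          (((Nat.sqrt (2 * ⌊3 / κ1 * R⌋₊ ^ 3) + 1) ^ 2 : ℕ) : ℤ) := by exact_mod_cast h3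
      exact lt_of_le_of_lt h2 h4

end Pool.Agent.TH861.TW
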