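import Mathlib
import Pool.Agent.TH562.TW.BadE

set_option autoImplicit false

/-!
# Numerical estimates
-/

namespace Pool.Agent.TH861.TW

open Filter Pool.Agent.TH562.TW

theorem log_sqrt (c : ℝ) (hc : 0 < c) : ∃ y0 : ℝ, 1 ≤ y0 ∧ ∀ y : ℝ, y0 ≤ y →
    1 + Real.log (y ^ 2) ≤ c * y := by
  have h1 : ∀ᶠ x : ℝ in atTop, 1 ≤ c / 2 * x := by
    filter_upwards [eventually_ge_atTop (2 / c)] with x hx
    rw [div_le_iff₀ hc] at hx
    linarith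
  have h2 : ∀ᶠ x : ℝ in atTop, Real.log x ≤ c / 4 * x := by
    have := Real.isLittleO_log_id_atTop.bound (show (0 : ℝ) < c / 4 by positivity)
    filter_upwards [this, eventually_ge_atTop 1] with x hx hx1
    rw [Real.norm_of_nonneg (Real.log_nonneg hx1)] at hx
    simp only [id, Real.norm_eq_abs] at hx
    rwa [abs_of_nonneg (by linarith)] at hx
  obtain ⟨y0, hy0⟩ := eventually_atTop.1 (h1.and h2)
  refine ⟨max y0 1, le_max_right _ _, fun y hy => ?_⟩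
  obtain ⟨g1, g2⟩ := hy0 y ((le_max_left _ _).trans hy)
  rw [Real.log_pow]
  push_cast
  linarith

theorem numeric {Q W : ℕ} {κ1 C1 : ℝ} (hQ : 0 < Q) (hW : 100 ≤ W) (hκ1 : 0 < κ1)
    (hκ3 : 3 * κ1 ≤ 1) (hC1 : 1 ≤ C1) (hC : 5000000 * (Q : ℝ) ^ 2 ≤ C1 ^ 2 * κ1 ^ 5) :
    ∃ y0 : ℝ, 1 ≤ y0 ∧ ∀ y lam : ℝ, y0 ≤ y → C1 * y ≤ lam → lam ≤ κ1 * y ^ 2 / Q →
      W ≤ ⌊lam⌋₊ ∧
      ((κ1 * y ^ 2 / Q) * lam / W + ((κ1 * y ^ 2 / Q) + lam) *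
          (1 + Real.log (⌊2 * κ1 * y ^ 2⌋₊ : ℕ)) + (⌊2 * κ1 * y ^ 2⌋₊ : ℕ)) +
        (lam + 1) * ((κ1 * y ^ 2 / Q) / W + (Nat.sqrt ⌊2 * κ1 * y ^ 2⌋₊ : ℕ)) +
        3 * (((κ1 * y ^ 2 / Q) + 1) * (lam / W + Nat.primeCounting ⌊lam⌋₊)) +
        3 * (((⌊3 / κ1 * y ^ 2⌋₊ : ℕ) : ℝ) ^ 2 / (⌊lam⌋₊ : ℕ) +
          Nat.primeCounting (Nat.sqrt (2 * ⌊3 / κ1 * y ^ 2⌋₊ ^ 3))) ≤
        1 / 4 * ((κ1 * y ^ 2 / Q) * lam) := by
  have hQ' : (0 : ℝ) < Q := by exact_mod_cast hQ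
  have hQ1 : (1 : ℝ) ≤ Q := by exact_mod_cast hQ
  have hW' : (100 : ℝ) ≤ W := by exact_mod_cast hW
  obtain ⟨y1, hy1, hlog⟩ := log_sqrt (1 / 400) (by norm_num)
  obtain ⟨K0, hK0⟩ := eventually_atTop.1 (pi_small (ε := 1 / 1000) (by norm_num))
  refine ⟨max y1 (400 * Q / κ1 + 2 * K0 + 2 * W + 4), le_max_of_le_left hy1, ?_⟩
  intro y lam hy hlam1 hlam2
  have hyy1 : y1 ≤ y := (le_max_left _ _).trans hy
  have hy2 : 400 * Q / κ1 + 2 * K0 + 2 * W + 4 ≤ y := (le_max_right _ _).trans hy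
  have hyQ : 400 * Q / κ1 ≤ y := by
    have h1 : (0 : ℝ) ≤ K0 := Nat.cast_nonneg _
    have h2 : (0 : ℝ) ≤ W := Nat.cast_nonneg _
    linarith
  have hQκ : (0 : ℝ) < 400 * Q / κ1 := by positivity
  have hyK : 2 * (K0 : ℝ) + 2 * W + 4 ≤ y := by linarith
  have hy1' : 1 ≤ y := hy1.trans hyy1
  have hy0 : 0 < y := by linarith
  have hlamy : y ≤ lam := by nlinarith
  have hlam0 : 0 < lam := by linarith
  set R := y ^ 2 with hR
  have hR0 : 0 < R := by positivity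
  set LL := κ1 * R / Q with hLL
  have hLL0 : 0 < LL := by positivity
  set P := LL * lam with hP
  have hP0 : 0 < P := by positivity
  -- K
  have hK1 : lam / 2 ≤ (⌊lam⌋₊ : ℝ) := by
    have := Nat.lt_floor_add_one lam
    have h4 : (0 : ℝ) ≤ K0 := Nat.cast_nonneg _
    have h2 : (0 : ℝ) ≤ W := Nat.cast_nonneg _
    linarith
  have hK2 : (⌊lam⌋₊ : ℝ) ≤ lam := Nat.floor_le hlam0.le
  have hWK : W ≤ ⌊lam⌋₊ := by
    have h4 : (0 : ℝ) ≤ K0 := Nat.cast_nonneg _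
    have : (W : ℝ) ≤ (⌊lam⌋₊ : ℝ) := by linarith
    exact_mod_cast this
  have hK0' : K0 ≤ ⌊lam⌋₊ := by
    have h4 : (0 : ℝ) ≤ W := Nat.cast_nonneg _
    have : (K0 : ℝ) ≤ (⌊lam⌋₊ : ℝ) := by linarith
    exact_mod_cast this
  refine ⟨hWK, ?_⟩
  -- V
  have hV1 : ((⌊2 * κ1 * R⌋₊ : ℕ) : ℝ) ≤ 2 * κ1 * R := Nat.floor_le (by positivity)
  have hVR : 2 * κ1 * R ≤ R := by nlinarith
  have hyQ2 : 400 * Q ≤ κ1 * y := by
    rw [div_le_iff₀ hκ1] at hyQ; linarith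
  have hyQ3 : 400 * (Q : ℝ) ≤ lam := by
    have : κ1 * y ≤ 1 * y := mul_le_mul_of_nonneg_right (by linarith) hy0.le
    linarith
  have t1a : LL * lam / W ≤ P / 100 := by
    rw [← hP]
    exact div_le_div_of_nonneg_left hP0.le (by norm_num) hW'
  have t1b : (LL + lam) * (1 + Real.log ((⌊2 * κ1 * R⌋₊ : ℕ) : ℝ)) ≤ P / 200 := by
    have h1 : 1 + Real.log ((⌊2 * κ1 * R⌋₊ : ℕ) : ℝ) ≤ lam / 400 := by
      have h2 : Real.log ((⌊2 * κ1 * R⌋₊ : ℕ) : ℝ) ≤ Real.log R := by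
        rcases Nat.eq_zero_or_pos ⌊2 * κ1 * R⌋₊ with h0 | h0
        · rw [h0]
          simp only [Nat.cast_zero, Real.log_zero]
          apply Real.log_nonneg
          rw [hR]
          exact one_le_pow₀ hy1'
        · exact Real.log_le_log (by exact_mod_cast h0) (hV1.trans hVR)
      have h3 := hlog y hyy1
      linarith
    have h4 : LL + lam ≤ 2 * LL := by linarith
    calc (LL + lam) * (1 + Real.log ((⌊2 * κ1 * R⌋₊ : ℕ) : ℝ)) ≤ (LL + lam) * (lam / 400) :=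
          mul_le_mul_of_nonneg_left h1 (by positivity)
      _ ≤ (2 * LL) * (lam / 400) := mul_le_mul_of_nonneg_right h4 (by positivity)
      _ = P / 200 := by rw [hP]; ring
  have eLL : κ1 * R = Q * LL := by
    rw [hLL]; field_simp
  have t1c : ((⌊2 * κ1 * R⌋₊ : ℕ) : ℝ) ≤ P / 200 := by
    refine hV1.trans ?_
    have h1 : 2 * κ1 * R = 2 * Q * LL := by linarith
    rw [h1, hP]
    have h2 : LL * (400 * Q) ≤ LL * lam := mul_le_mul_of_nonneg_left hyQ3 hLL0.le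
    linarith
  -- T2
  have hX2 : ((Nat.sqrt ⌊2 * κ1 * R⌋₊ : ℕ) : ℝ) ≤ y := by
    have h1 : ((Nat.sqrt ⌊2 * κ1 * R⌋₊ : ℕ) : ℝ) ^ 2 ≤ y ^ 2 := by
      have h2 : (Nat.sqrt ⌊2 * κ1 * R⌋₊) ^ 2 ≤ ⌊2 * κ1 * R⌋₊ := Nat.sqrt_le' _
      have h3 : ((Nat.sqrt ⌊2 * κ1 * R⌋₊ : ℕ) : ℝ) ^ 2 ≤ ((⌊2 * κ1 * R⌋₊ : ℕ) : ℝ) := by
        exact_mod_cast h2
      linarith
    exact (pow_le_pow_iff_left₀ (Nat.cast_nonneg _) hy0.le two_ne_zero).1 h1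
  have t2 : (lam + 1) * (LL / W + ((Nat.sqrt ⌊2 * κ1 * R⌋₊ : ℕ) : ℝ)) ≤ P / 50 + P / 200 := by
    have h1 : lam + 1 ≤ 2 * lam := by linarith
    have h2 : LL / W ≤ LL / 100 := div_le_div_of_nonneg_left hLL0.le (by norm_num) hW'
    have h3 : y ≤ LL / 400 := by
      rw [hLL, hR, le_div_iff₀ (by norm_num), le_div_iff₀ hQ']
      have : (400 * Q) * y ≤ (κ1 * y) * y := mul_le_mul_of_nonneg_right hyQ2 hy0.le
      nlinarith
    calc (lam + 1) * (LL / W + ((Nat.sqrt ⌊2 * κ1 * R⌋₊ : ℕ) : ℝ))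
        ≤ (2 * lam) * (LL / 100 + LL / 400) := by
          refine mul_le_mul h1 (by linarith) (by positivity) (by positivity)
      _ = P / 50 + P / 200 := by rw [hP]; ring
  -- T3
  have t3 : 3 * ((LL + 1) * (lam / W + Nat.primeCounting ⌊lam⌋₊)) ≤ 6 / 100 * P + 6 / 1000 * P := by
    have h1 : lam / W ≤ lam / 100 := div_le_div_of_nonneg_left hlam0.le (by norm_num) hW'
    have h2 : (Nat.primeCounting ⌊lam⌋₊ : ℝ) ≤ lam / 1000 := by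
      have := hK0 ⌊lam⌋₊ hK0'
      linarith
    have h3 : LL + 1 ≤ 2 * LL := by
      have : 1 ≤ LL := by linarith
      linarith
    have h4 : (LL + 1) * (lam / W + Nat.primeCounting ⌊lam⌋₊) ≤
        (2 * LL) * (lam / 100 + lam / 1000) :=
      mul_le_mul h3 (by linarith) (by positivity) (by positivity)
    calc 3 * ((LL + 1) * (lam / W + Nat.primeCounting ⌊lam⌋₊))
        ≤ 3 * ((2 * LL) * (lam / 100 + lam / 1000)) := by linarith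
      _ = 6 / 100 * P + 6 / 1000 * P := by rw [hP]; ring
  -- T4
  have hS1 : ((⌊3 / κ1 * R⌋₊ : ℕ) : ℝ) ≤ 3 / κ1 * R := Nat.floor_le (by positivity)
  have hlamsq : C1 ^ 2 * R ≤ lam ^ 2 := by
    have := pow_le_pow_left₀ (by positivity) hlam1 2
    rw [hR]
    nlinarith
  have hκ11 : κ1 ≤ 1 := by linarith
  have t4a : 3 * (((⌊3 / κ1 * R⌋₊ : ℕ) : ℝ) ^ 2 / (⌊lam⌋₊ : ℕ)) ≤ P / 100 := by
    have h1 : ((⌊3 / κ1 * R⌋₊ : ℕ) : ℝ) ^ 2 ≤ (3 / κ1 * R) ^ 2 :=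
      pow_le_pow_left₀ (Nat.cast_nonneg _) hS1 2
    have h2 : ((⌊3 / κ1 * R⌋₊ : ℕ) : ℝ) ^ 2 / (⌊lam⌋₊ : ℕ) ≤ (3 / κ1 * R) ^ 2 / (lam / 2) :=
      div_le_div₀ (by positivity) h1 (by positivity) hK1
    have h3 : 3 * ((3 / κ1 * R) ^ 2 / (lam / 2)) ≤ P / 100 := by
      have e1 : 3 * ((3 / κ1 * R) ^ 2 / (lam / 2)) = 54 * R ^ 2 / (κ1 ^ 2 * lam) := by
        field_simp
        ring
      rw [e1, div_le_iff₀ (by positivity), hP, hLL]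
      have e2 : κ1 * R / Q * lam / 100 * (κ1 ^ 2 * lam) = κ1 ^ 3 * R * lam ^ 2 / (100 * Q) := by
        field_simp
      rw [e2, le_div_iff₀ (by positivity)]
      have h5 : 5400 * (Q : ℝ) ≤ C1 ^ 2 * κ1 ^ 3 := by
        have a1 : C1 ^ 2 * κ1 ^ 5 ≤ C1 ^ 2 * κ1 ^ 3 :=
          mul_le_mul_of_nonneg_left (pow_le_pow_of_le_one hκ1.le hκ11 (by norm_num)) (by positivity)
        have a2 : (Q : ℝ) ≤ (Q : ℝ) ^ 2 := by nlinarith
        nlinarith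
      have h6 : κ1 ^ 3 * R * (C1 ^ 2 * R) ≤ κ1 ^ 3 * R * lam ^ 2 :=
        mul_le_mul_of_nonneg_left hlamsq (by positivity)
      have h7 : (5400 * (Q : ℝ)) * R ^ 2 ≤ (C1 ^ 2 * κ1 ^ 3) * R ^ 2 :=
        mul_le_mul_of_nonneg_right h5 (by positivity)
      nlinarith
    linarith
  have t4b : 3 * (Nat.primeCounting (Nat.sqrt (2 * ⌊3 / κ1 * R⌋₊ ^ 3)) : ℝ) ≤ P / 100 := by
    set X4 := Nat.sqrt (2 * ⌊3 / κ1 * R⌋₊ ^ 3) with hX4
    have h1 : (Nat.primeCounting X4 : ℝ) ≤ X4 := by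
      have : Nat.primeCounting X4 ≤ X4 := by
        rw [Nat.primeCounting, Nat.primeCounting']
        rw [Nat.count_eq_card_filter_range]
        have hsub : (Finset.range (X4 + 1)).filter Nat.Prime ⊆ Finset.Icc 1 X4 := by
          intro p hp
          rw [Finset.mem_filter, Finset.mem_range] at hp
          rw [Finset.mem_Icc]
          have := hp.2.pos
          omega
        have := Finset.card_le_card hsub
        simpa using this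
      exact_mod_cast this
    have h2 : ((X4 : ℕ) : ℝ) ^ 2 ≤ 54 * R ^ 3 / κ1 ^ 3 := by
      have h3 : X4 ^ 2 ≤ 2 * ⌊3 / κ1 * R⌋₊ ^ 3 := Nat.sqrt_le' _
      have h4 : ((X4 : ℕ) : ℝ) ^ 2 ≤ 2 * ((⌊3 / κ1 * R⌋₊ : ℕ) : ℝ) ^ 3 := by exact_mod_cast h3
      have h5 : ((⌊3 / κ1 * R⌋₊ : ℕ) : ℝ) ^ 3 ≤ (3 / κ1 * R) ^ 3 :=
        pow_le_pow_left₀ (Nat.cast_nonneg _) hS1 3
      have h6 : 2 * (3 / κ1 * R) ^ 3 = 54 * R ^ 3 / κ1 ^ 3 := by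
        field_simp
        ring
      linarith
    have h3 : ((X4 : ℕ) : ℝ) ≤ P / 300 := by
      have h4 : ((X4 : ℕ) : ℝ) ^ 2 ≤ (P / 300) ^ 2 := by
        refine h2.trans ?_
        rw [hP, hLL]
        have e2 : (κ1 * R / Q * lam / 300) ^ 2 = κ1 ^ 2 * R ^ 2 * lam ^ 2 / (90000 * Q ^ 2) := by
          field_simp
          ring
        rw [e2, div_le_div_iff₀ (by positivity) (by positivity)]
        have h6 : κ1 ^ 2 * R ^ 2 * (C1 ^ 2 * R) ≤ κ1 ^ 2 * R ^ 2 * lam ^ 2 :=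
          mul_le_mul_of_nonneg_left hlamsq (by positivity)
        have h7 : (5000000 * (Q : ℝ) ^ 2) * R ^ 3 ≤ (C1 ^ 2 * κ1 ^ 5) * R ^ 3 :=
          mul_le_mul_of_nonneg_right hC (by positivity)
        have h8 : κ1 ^ 2 * R ^ 2 * (C1 ^ 2 * R) * κ1 ^ 3 ≤ κ1 ^ 2 * R ^ 2 * lam ^ 2 * κ1 ^ 3 :=
          mul_le_mul_of_nonneg_right h6 (by positivity)
        have e3 : κ1 ^ 2 * R ^ 2 * (C1 ^ 2 * R) * κ1 ^ 3 = (C1 ^ 2 * κ1 ^ 5) * R ^ 3 := by ring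
        have h9 : 0 ≤ (Q : ℝ) ^ 2 * R ^ 3 := by positivity
        nlinarith
      exact (pow_le_pow_iff_left₀ (Nat.cast_nonneg _) (by positivity) two_ne_zero).1 h4
    linarith
  linarith

end Pool.Agent.TH861.TW
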