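import Mathlib
import Pool.Agent.TH861.TW.Fam
import Pool.Agent.TH861.TW.Num
import Pool.Agent.H510R2.Div

set_option autoImplicit false

/-!
# Twists of positive rank in every interval `[X, X + H]`, `H ≥ C X ^ (7/8)`
-/

namespace Pool.Agent.TH861.TW

open Finset Filter Pool.Agent.TH562.TW

/-- choice of `κ` -/
theorem exists_kappa (A B : ℝ) : ∃ κ : ℝ, 0 < κ ∧ κ ≤ 1 ∧ |A| * κ ^ 2 ≤ 1 / 4 ∧
    |B| * κ ^ 3 ≤ 1 / 4 := by
  have hA := abs_nonneg A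
  have hB := abs_nonneg B
  set D : ℝ := 1 + 4 * |A| + 4 * |B| with hD
  have hD1 : 1 ≤ D := by linarith
  have hD0 : 0 < D := by linarith
  have h1 : 1 / D ≤ 1 := by rw [div_le_one hD0]; exact hD1
  have h0 : 0 < 1 / D := by positivity
  have h2 : (1 / D) ^ 2 ≤ 1 / D := by
    have := pow_le_pow_of_le_one h0.le h1 (show 1 ≤ 2 by norm_num)
    rwa [pow_one] at this
  have h3 : (1 / D) ^ 3 ≤ 1 / D := by
    have := pow_le_pow_of_le_one h0.le h1 (show 1 ≤ 3 by norm_num)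
    rwa [pow_one] at this
  have h4 : |A| * (1 / D) ≤ 1 / 4 := by
    rw [mul_one_div, div_le_iff₀ hD0]; linarith
  have h5 : |B| * (1 / D) ≤ 1 / 4 := by
    rw [mul_one_div, div_le_iff₀ hD0]; linarith
  exact ⟨1 / D, h0, h1, (mul_le_mul_of_nonneg_left h2 hA).trans h4,
    (mul_le_mul_of_nonneg_left h3 hB).trans h5⟩

/-- the good pairs give many different values -/
theorem many_values {A B : ℤ} {Q a : ℕ} {κ : ℝ} (hQ : 0 < Q) (apos : 0 < a) (hκ : 0 < κ)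
    (hA : |(A : ℝ)| * κ ^ 2 ≤ 1 / 4) (hB : |(B : ℝ)| * κ ^ 3 ≤ 1 / 4)
    (G : Finset (ℕ × ℕ)) (D : ℝ) (hG : ∀ x ∈ G, ((a + Q * x.2 : ℕ) : ℝ) ≤
      κ * ((1 + Q * x.1 : ℕ) : ℝ) ∧
      0 < PZ A B 0 (1 + Q * x.1) (a + Q * x.2) ∧
      ((PZ A B 0 (1 + Q * x.1) (a + Q * x.2)).toNat.divisors.card : ℝ) ≤ D) :
    (G.card : ℝ) ≤
      (G.image fun x => (PZ A B 0 (1 + Q * x.1) (a + Q * x.2)).toNat).card * D := by
  classical
  refine card_fib G (fun x => (PZ A B 0 (1 + Q * x.1) (a + Q * x.2)).toNat) D ?_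
  intro d hd
  obtain ⟨x0, hx0, hx0d⟩ := Finset.mem_image.1 hd
  refine le_trans ?_ (by rw [← hx0d]; exact (hG x0 hx0).2.2 : ((d.divisors.card : ℕ) : ℝ) ≤ D)
  have h : (G.filter fun x => (PZ A B 0 (1 + Q * x.1) (a + Q * x.2)).toNat = d).card ≤
      d.divisors.card := by
    refine Finset.card_le_card_of_injOn (fun x => a + Q * x.2) ?_ ?_
    · intro x hx
      obtain ⟨hx1, hx2⟩ := Finset.mem_filter.1 hx
      have h1 := (hG x hx1).2.1
      have h3 : ((d : ℕ) : ℤ) = PZ A B 0 (1 + Q * x.1) (a + Q * x.2) := by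
        rw [← hx2]; exact Int.toNat_of_nonneg h1.le
      rw [Finset.mem_coe, Nat.mem_divisors]
      constructor
      · have : ((a + Q * x.2 : ℕ) : ℤ) ∣ ((d : ℕ) : ℤ) := by
          rw [h3, PZ_eq]; exact Dvd.intro _ rfl
        exact Int.natCast_dvd_natCast.1 this
      · intro h0
        rw [h0] at h3
        rw [← h3] at h1
        simp at h1
    · intro x hx y hy hxy
      obtain ⟨hx1, hx2⟩ := Finset.mem_filter.1 hx
      obtain ⟨hy1, hy2⟩ := Finset.mem_filter.1 hy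
      simp only at hxy
      have ex : x.2 = y.2 := Nat.eq_of_mul_eq_mul_left hQ (by omega)
      have h1 := (hG x hx1).2.1
      have h2 := (hG y hy1).2.1
      have h3 : PZ A B 0 (1 + Q * x.1) (a + Q * x.2) = PZ A B 0 (1 + Q * y.1) (a + Q * y.2) := by
        rw [← Int.toNat_of_nonneg h1.le, ← Int.toNat_of_nonneg h2.le, hx2, hy2]
      have h4 : fR A B ((a + Q * x.2 : ℕ) : ℝ) ((1 + Q * x.1 : ℕ) : ℝ) =
          fR A B ((a + Q * x.2 : ℕ) : ℝ) ((1 + Q * y.1 : ℕ) : ℝ) := by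
        rw [← PZ_fR, h3, ← ex, PZ_fR]
      have hv0 : (0 : ℝ) < ((a + Q * x.2 : ℕ) : ℝ) := by
        have : 0 < a + Q * x.2 := by omega
        exact_mod_cast this
      have h5 := fR_inj hκ hA hB hv0 (hG x hx1).1 (by rw [ex]; exact (hG y hy1).1) h4
      have h6 : 1 + Q * x.1 = 1 + Q * y.1 := by exact_mod_cast h5
      have h7 : x.1 = y.1 := Nat.eq_of_mul_eq_mul_left hQ (by omega)
      exact Prod.ext h7 ex
  exact_mod_cast h

theorem main_one {A B : ℤ} (hΔ : 4 * A ^ 3 + 27 * B ^ 2 ≠ 0) {M : ℕ} (hM : 0 < M) {a : ℕ}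
    (ha : a.Coprime M) : ∃ C : ℝ, 0 < C ∧ ∀ ε : ℝ, 0 < ε → ∃ X0 : ℝ, 1 ≤ X0 ∧ ∀ X H : ℝ, X0 ≤ X →
      C * X ^ (7 / 8 : ℝ) ≤ H → H ≤ X → ∃ S : Finset ℕ,
        H * X ^ (-(1 / 2) - ε) ≤ (S.card : ℝ) ∧ ∀ d ∈ S, Squarefree d ∧ d ≡ a [MOD M] ∧
          X ≤ (d : ℝ) ∧ (d : ℝ) ≤ X + H ∧
          {p : ℚ × ℚ | p.2 ^ 2 = p.1 ^ 3 + A * (d : ℚ) ^ 2 * p.1 +
            B * (d : ℚ) ^ 3}.Infinite := by
  classical
  obtain ⟨H₀, hH⟩ := infinite_points A B hΔ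
  set W : ℕ := 100 + M + (4 * A ^ 3 + 27 * B ^ 2).natAbs with hWdef
  have hW1 : 1 ≤ W := by omega
  set Q : ℕ := W.factorial with hQdef
  have hQ : 0 < Q := Nat.factorial_pos W
  have hQ' : (0 : ℝ) < Q := by exact_mod_cast hQ
  have hQ1 : (1 : ℝ) ≤ Q := by exact_mod_cast hQ
  have hMQ : M ∣ Q := Nat.dvd_factorial hM (by omega)
  have hQW : ∀ p : ℕ, p.Prime → W < p → ¬ p ∣ Q := by
    intro p hp hpW hd
    have := (hp.dvd_factorial).1 hd
    omega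
  have hQW' : ∀ p : ℕ, p.Prime → p ≤ W → p ∣ Q := fun p hp hpW => (hp.dvd_factorial).2 hpW
  obtain ⟨a', ha'Q, ha'p, ha'M⟩ := Nat.forall_exists_prime_gt_and_modEq Q hM.ne' ha
  have ha'pos : 0 < a' := ha'p.pos
  have ha'cop : Nat.Coprime a' Q := by
    rw [Nat.Prime.coprime_iff_not_dvd ha'p]
    intro hd
    have := Nat.le_of_dvd hQ hd
    omega
  set A' : ℤ := A * Q ^ 4 with hA'
  set B' : ℤ := B * Q ^ 6 with hB'
  have hdisc : ∀ p : ℕ, p.Prime → W < p → ¬ (p : ℤ) ∣ 4 * A' ^ 3 + 27 * B' ^ 2 := by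
    intro p hp hpW hd
    have hpZ : Prime (p : ℤ) := Nat.prime_iff_prime_int.1 hp
    have e : 4 * A' ^ 3 + 27 * B' ^ 2 = (Q : ℤ) ^ 12 * (4 * A ^ 3 + 27 * B ^ 2) := by
      rw [hA', hB']; ring
    rw [e] at hd
    rcases hpZ.dvd_or_dvd hd with h | h
    · have h1 := hpZ.dvd_of_dvd_pow h
      exact hQW p hp hpW (Int.natCast_dvd_natCast.1 h1)
    · have h1 : p ∣ (4 * A ^ 3 + 27 * B ^ 2).natAbs := Int.natCast_dvd.1 h
      have h2 := Nat.le_of_dvd (Int.natAbs_pos.2 hΔ) h1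
      omega
  obtain ⟨κ, hκ, hκle, hAκ, hBκ⟩ := exists_kappa (A' : ℝ) (B' : ℝ)
  set κ1 : ℝ := κ / 3 with hκ1def
  have hκ1 : 0 < κ1 := by positivity
  have hκ2 : 2 * κ1 ≤ κ := by rw [hκ1def]; linarith
  have hκ3 : 3 * κ1 ≤ 1 := by rw [hκ1def]; linarith
  have hκ11 : κ1 ≤ 1 := by linarith
  set C1 : ℝ := 2300 * Q / κ1 ^ 3 with hC1def
  have hC1pos : 0 < C1 := by positivity
  have hC1 : 1 ≤ C1 := by
    rw [hC1def, le_div_iff₀ (by positivity)]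
    have : κ1 ^ 3 ≤ 1 := pow_le_one₀ hκ1.le hκ11
    linarith
  have hCC : 5000000 * (Q : ℝ) ^ 2 ≤ C1 ^ 2 * κ1 ^ 5 := by
    have e : C1 ^ 2 * κ1 ^ 5 = 5290000 * (Q : ℝ) ^ 2 / κ1 := by
      rw [hC1def]; field_simp; norm_num
    rw [e, le_div_iff₀ hκ1]
    have h1 : (0 : ℝ) ≤ (Q : ℝ) ^ 2 := by positivity
    nlinarith
  obtain ⟨y0, hy01, hnum⟩ := numeric (W := W) hQ (by omega) hκ1 hκ3 hC1 hCC
  refine ⟨72 * Q * C1 / κ1, by positivity, fun ε hε => ?_⟩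
  obtain ⟨Cd, hCd, hdiv⟩ := Pool.Agent.H510R2.divisor_bound (ε / 2) (by positivity)
  -- the final constant
  obtain ⟨y1, hy1⟩ : ∃ y1 : ℝ, ∀ y : ℝ, y1 ≤ y →
      144 * Q ^ 2 * Cd * 2 ^ (ε / 2) / κ1 ^ 2 ≤ y ^ (4 * ε) := by
    have := (tendsto_rpow_atTop (show (0 : ℝ) < 4 * ε by positivity)).eventually_ge_atTop
      (144 * Q ^ 2 * Cd * 2 ^ (ε / 2) / κ1 ^ 2)
    exact eventually_atTop.1 this
  set Y : ℝ := max (max y0 y1) (100 * Q / κ1 + 100 * a' / κ1 + |(H₀ : ℝ)| / κ1 + 100) with hY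
  have hY1 : 1 ≤ Y := hy01.trans ((le_max_left _ _).trans (le_max_left _ _))
  refine ⟨Y ^ 8, one_le_pow₀ hY1, ?_⟩
  intro X H hX hH1 hH2
  have hX1 : 1 ≤ X := (one_le_pow₀ hY1).trans hX
  have hX0 : 0 < X := by linarith
  set y : ℝ := X ^ (1 / 8 : ℝ) with hy
  have hy8 : y ^ 8 = X := by
    rw [hy, ← Real.rpow_natCast, ← Real.rpow_mul hX0.le]
    norm_num
  have hy0' : 0 < y := Real.rpow_pos_of_pos hX0 _
  have hYy : Y ≤ y := by
    rw [← hy8] at hX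
    exact (pow_le_pow_iff_left₀ (by linarith) hy0'.le (by norm_num)).1 hX
  have hyY0 : y0 ≤ y := ((le_max_left _ _).trans (le_max_left _ _)).trans hYy
  have hyY1 : y1 ≤ y := ((le_max_right _ _).trans (le_max_left _ _)).trans hYy
  have hyY2 : 100 * Q / κ1 + 100 * a' / κ1 + |(H₀ : ℝ)| / κ1 + 100 ≤ y :=
    (le_max_right _ _).trans hYy
  have hq1 : 0 ≤ 100 * Q / κ1 := by positivity
  have hq2 : 0 ≤ 100 * a' / κ1 := by positivity
  have hq3 : 0 ≤ |(H₀ : ℝ)| / κ1 := by positivity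
  have hy100 : 100 ≤ y := by linarith
  have hyge1 : 1 ≤ y := by linarith
  set R : ℝ := y ^ 2 with hR
  have hR1 : 1 ≤ R := one_le_pow₀ hyge1
  have hR0 : 0 < R := by linarith
  have hyR : y ≤ R := by rw [hR]; nlinarith
  have hR4 : R ^ 4 = X := by rw [hR, ← hy8]; ring
  have hX78 : X ^ (7 / 8 : ℝ) = y ^ 7 := by
    rw [hy, ← Real.rpow_natCast, ← Real.rpow_mul hX0.le]
    norm_num
  rw [hX78] at hH1
  have hH0 : 0 < H := lt_of_lt_of_le (by positivity) hH1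
  set w : ℝ := κ1 * H / (72 * R ^ 3) with hw
  have hw0 : 0 < w := by positivity
  have hwH : 72 * R ^ 3 * w ≤ κ1 * H := by
    rw [hw]
    apply le_of_eq
    field_simp
  have hwR1 : w ≤ κ1 * R / 72 := by
    rw [hw, div_le_div_iff₀ (by positivity) (by norm_num)]
    have : κ1 * H ≤ κ1 * R ^ 4 := by
      rw [hR4]; exact mul_le_mul_of_nonneg_left hH2 hκ1.le
    nlinarith
  have hwR : w ≤ R := by
    refine hwR1.trans ?_
    rw [div_le_iff₀ (by norm_num)]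
    nlinarith
  -- the rows
  set Ls : Finset ℕ := Finset.Icc ⌈κ1 * R / Q⌉₊ ⌊(2 * κ1 * R - a') / Q⌋₊ with hLs
  have haκ : 100 * (a' : ℝ) ≤ κ1 * y := by
    have h1 : 100 * a' / κ1 ≤ y := by linarith
    rw [div_le_iff₀ hκ1] at h1; linarith
  have hQκ : 100 * (Q : ℝ) ≤ κ1 * y := by
    have h1 : 100 * Q / κ1 ≤ y := by linarith
    rw [div_le_iff₀ hκ1] at h1; linarith
  have hκyR : κ1 * y ≤ κ1 * R := mul_le_mul_of_nonneg_left hyR hκ1.le
  have hLsmem : ∀ l ∈ Ls, κ1 * R / Q ≤ l ∧ ((a' + Q * l : ℕ) : ℝ) ≤ 2 * κ1 * R := by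
    intro l hl
    rw [hLs, Finset.mem_Icc] at hl
    have h1 : κ1 * R / Q ≤ l := (Nat.le_ceil _).trans (by exact_mod_cast hl.1)
    have h2 : (l : ℝ) ≤ (2 * κ1 * R - a') / Q := by
      have h3 : (0 : ℝ) ≤ (2 * κ1 * R - a') / Q := by
        apply div_nonneg _ hQ'.le
        have : (0 : ℝ) ≤ a' := Nat.cast_nonneg _
        linarith
      exact le_trans (by exact_mod_cast hl.2) (Nat.floor_le h3)
    refine ⟨h1, ?_⟩
    rw [le_div_iff₀ hQ'] at h2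
    push_cast
    linarith
  have hLscard : 9 / 10 * (κ1 * R / Q) ≤ (Ls.card : ℝ) := by
    rw [hLs, Nat.card_Icc]
    have h1 : (⌈κ1 * R / Q⌉₊ : ℝ) < κ1 * R / Q + 1 := Nat.ceil_lt_add_one (by positivity)
    have h2 : (2 * κ1 * R - a') / Q < (⌊(2 * κ1 * R - a') / Q⌋₊ : ℝ) + 1 :=
      Nat.lt_floor_add_one _
    have h3 : ((⌊(2 * κ1 * R - a') / Q⌋₊ + 1 : ℕ) : ℝ) - (⌈κ1 * R / Q⌉₊ : ℝ) ≤
        ((⌊(2 * κ1 * R - a') / Q⌋₊ + 1 - ⌈κ1 * R / Q⌉₊ : ℕ) : ℝ) := by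
      have : ⌊(2 * κ1 * R - a') / Q⌋₊ + 1 ≤ (⌊(2 * κ1 * R - a') / Q⌋₊ + 1 - ⌈κ1 * R / Q⌉₊) +
        ⌈κ1 * R / Q⌉₊ := by omega
      have h4 : ((⌊(2 * κ1 * R - a') / Q⌋₊ + 1 : ℕ) : ℝ) ≤
        (((⌊(2 * κ1 * R - a') / Q⌋₊ + 1 - ⌈κ1 * R / Q⌉₊) + ⌈κ1 * R / Q⌉₊ : ℕ) : ℝ) := by
        exact_mod_cast this
      push_cast at h4 ⊢
      linarith
    refine le_trans ?_ h3
    push_cast
    have e1 : (2 * κ1 * R - a') / Q = 2 * (κ1 * R / Q) - a' / Q := by ring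
    have h5 : (a' : ℝ) / Q ≤ (κ1 * R / Q) / 100 := by
      rw [div_div, div_le_div_iff₀ hQ' (by positivity)]
      nlinarith
    have h6 : 1 ≤ (κ1 * R / Q) / 100 := by
      rw [div_div, le_div_iff₀ (by positivity)]
      linarith
    linarith
  -- end points
  have hex : ∀ l : ℕ, ∃ s : ℝ, l ∈ Ls → R ≤ s ∧ s ≤ 2 / κ1 * R ∧
      fR A' B' ((a' + Q * l : ℕ) : ℝ) s = R ^ 4 := by
    intro l
    by_cases hl : l ∈ Ls
    · obtain ⟨h1, h2⟩ := hLsmem l hl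
      have h3 : κ1 * R ≤ ((a' + Q * l : ℕ) : ℝ) := by
        rw [div_le_iff₀ hQ'] at h1
        push_cast
        have : (0 : ℝ) ≤ a' := Nat.cast_nonneg _
        linarith
      obtain ⟨s, hs⟩ := exists_root hκ hAκ hBκ hκ1 hκ2 hκ3 hR0 h3 h2
      exact ⟨s, fun _ => hs⟩
    · exact ⟨0, fun h => absurd h hl⟩
  choose σ hσ using hex
  have hd := dat (A := A') (B := B') (a := a') (w := w) hQ hW1 ha'pos hQW hQW' hdisc hκ hAκ hBκ
    hκ1 hκ2 hκ3 hR1 hLsmem (σ := σ) (fun l hl => ⟨(hσ l hl).1, (hσ l hl).2.1⟩) hw0.le hwR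
  set T := Fam Q σ w Ls with hT
  -- sizes
  have hlam1 : C1 * y ≤ w / Q := by
    rw [le_div_iff₀ hQ', hw, le_div_iff₀ (by positivity)]
    have h1 : 72 * Q * C1 / κ1 * y ^ 7 * κ1 ≤ H * κ1 := mul_le_mul_of_nonneg_right hH1 hκ1.le
    have e1 : 72 * Q * C1 / κ1 * y ^ 7 * κ1 = C1 * y * Q * (72 * R ^ 3) := by
      rw [hR]; field_simp
    rw [e1] at h1
    linarith
  have hlam2 : w / Q ≤ κ1 * y ^ 2 / Q := by
    apply div_le_div_of_nonneg_right _ hQ'.le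
    rw [← hR]
    have : 0 < κ1 * R := by positivity
    linarith
  obtain ⟨hWK, hbad⟩ := hnum y (w / Q) hyY0 hlam1 hlam2
  have hbc := hd.bad_count (K := ⌊w / Q⌋₊) hWK
  rw [← hR] at hbad
  have hbad2 := hbc.trans hbad
  set lam := w / Q with hlam
  set LL := κ1 * R / Q with hLLdef
  have hlam100 : 100 ≤ lam := by
    have : y ≤ C1 * y := by nlinarith
    linarith
  have hLLpos : 0 < LL := by positivity
  have hTcard : 8 / 10 * (LL * lam) ≤ (T.card : ℝ) := by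
    have h1 := card_Fam (σ := σ) (w := w) (Ls := Ls) hQ
      (fun l hl => hR1.trans (hσ l hl).1) hw0.le
    refine le_trans ?_ h1
    rw [← hlam]
    have h2 : 99 / 100 * lam ≤ lam - 1 := by linarith
    have h3 : (9 / 10 * LL) * (99 / 100 * lam) ≤ (Ls.card : ℝ) * (lam - 1) :=
      mul_le_mul hLscard h2 (by positivity) (by positivity)
    have h4 : 0 < LL * lam := by positivity
    nlinarith
  set G := T.filter fun x => GoodT A' B' 0 Q a' W x with hG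
  have hGcard : 1 / 2 * (LL * lam) ≤ (G.card : ℝ) := by
    have h1 : G.card + (T.filter fun x => ¬ GoodT A' B' 0 Q a' W x).card = T.card :=
      Finset.card_filter_add_card_filter_not _
    have h2 : (G.card : ℝ) + ((T.filter fun x => ¬ GoodT A' B' 0 Q a' W x).card : ℝ) = T.card := by
      exact_mod_cast h1
    have h4 : 0 < LL * lam := by positivity
    linarith
  -- facts on members
  have hmem : ∀ x ∈ T, κ1 * R ≤ ((a' + Q * x.2 : ℕ) : ℝ) ∧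
      ((a' + Q * x.2 : ℕ) : ℝ) ≤ κ * ((1 + Q * x.1 : ℕ) : ℝ) ∧
      X ≤ (PZ A' B' 0 (1 + Q * x.1) (a' + Q * x.2) : ℝ) ∧
      (PZ A' B' 0 (1 + Q * x.1) (a' + Q * x.2) : ℝ) ≤ X + H := by
    intro x hx
    obtain ⟨h1, h2⟩ := mem_Fam hx
    obtain ⟨h3, h4, h5⟩ := hσ _ h1
    obtain ⟨_, _, h6, h7⟩ := mem_Row hQ (hR1.trans h3) hw0.le h2
    obtain ⟨h8, h9⟩ := hLsmem _ h1
    have h10 : κ1 * R ≤ ((a' + Q * x.2 : ℕ) : ℝ) := by
      rw [div_le_iff₀ hQ'] at h8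
      push_cast
      have : (0 : ℝ) ≤ a' := Nat.cast_nonneg _
      linarith
    obtain ⟨h11, h12⟩ := row_values hκ hAκ hBκ hκ1 hκ2 hκ3 hR0 h10 h9 h3 h4 h5 hw0.le hwR hwH h6 h7
    rw [← PZ_fR, hR4] at h11 h12
    refine ⟨h10, ?_, h11, h12⟩
    calc ((a' + Q * x.2 : ℕ) : ℝ) ≤ 2 * κ1 * R := h9
      _ ≤ κ * R := mul_le_mul_of_nonneg_right hκ2 hR0.le
      _ ≤ κ * ((1 + Q * x.1 : ℕ) : ℝ) := mul_le_mul_of_nonneg_left (h3.trans h6) hκ.le
  have hPpos : ∀ x ∈ T, 0 < PZ A' B' 0 (1 + Q * x.1) (a' + Q * x.2) := by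
    intro x hx
    have := (hmem x hx).2.2.1
    have h2 : (0 : ℝ) < (PZ A' B' 0 (1 + Q * x.1) (a' + Q * x.2) : ℝ) := by linarith
    exact_mod_cast h2
  set S := G.image fun x => (PZ A' B' 0 (1 + Q * x.1) (a' + Q * x.2)).toNat with hS
  have hmany := many_values (A := A') (B := B') (Q := Q) (a := a') hQ ha'pos hκ hAκ hBκ G
    (Cd * (2 * X) ^ (ε / 2)) (by
      intro x hx
      have hxT := (Finset.mem_filter.1 hx).1
      refine ⟨(hmem x hxT).2.1, hPpos x hxT, ?_⟩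
      have h1 : 1 ≤ (PZ A' B' 0 (1 + Q * x.1) (a' + Q * x.2)).toNat := by
        have := hPpos x hxT
        omega
      refine (hdiv _ h1).trans ?_
      refine mul_le_mul_of_nonneg_left ?_ hCd.le
      refine Real.rpow_le_rpow (by positivity) ?_ (by positivity)
      have h2 : (((PZ A' B' 0 (1 + Q * x.1) (a' + Q * x.2)).toNat : ℕ) : ℝ) =
          (PZ A' B' 0 (1 + Q * x.1) (a' + Q * x.2) : ℝ) := by
        exact_mod_cast Int.toNat_of_nonneg (hPpos x hxT).le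
      rw [h2]
      have := (hmem x hxT).2.2.2
      linarith)
  refine ⟨S, ?_, ?_⟩
  · -- the count
    have h1 : 1 / 2 * (LL * lam) ≤ S.card * (Cd * (2 * X) ^ (ε / 2)) := hGcard.trans hmany
    have hD0 : 0 < Cd * (2 * X) ^ (ε / 2) := by positivity
    have h2 : 1 / 2 * (LL * lam) / (Cd * (2 * X) ^ (ε / 2)) ≤ S.card := by
      rw [div_le_iff₀ hD0]; exact h1
    refine le_trans ?_ h2
    rw [le_div_iff₀ hD0]
    have e1 : 1 / 2 * (LL * lam) = κ1 ^ 2 * H / (144 * Q ^ 2 * R ^ 2) := by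
      rw [hLLdef, hlam, hw]
      field_simp
      norm_num
    rw [e1, le_div_iff₀ (by positivity)]
    have e2 : (2 * X) ^ (ε / 2) = 2 ^ (ε / 2) * X ^ (ε / 2) :=
      Real.mul_rpow (by norm_num) hX0.le
    have e3 : X ^ (-(1 / 2) - ε) * (X ^ (ε / 2) * R ^ 2) = X ^ (-(ε / 2)) := by
      have : R ^ 2 = X ^ (1 / 2 : ℝ) := by
        rw [hR, hy, ← pow_mul, ← Real.rpow_natCast, ← Real.rpow_mul hX0.le]
        norm_num
      rw [this, ← Real.rpow_add hX0, ← Real.rpow_add hX0]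
      congr 1
      ring
    have e4 : X ^ (-(ε / 2)) = 1 / y ^ (4 * ε) := by
      rw [hy, ← Real.rpow_mul hX0.le, Real.rpow_neg hX0.le, one_div]
      congr 2
      ring
    have h3 := hy1 y hyY1
    have hyε : 0 < y ^ (4 * ε) := Real.rpow_pos_of_pos hy0' _
    have h4 : 144 * Q ^ 2 * Cd * 2 ^ (ε / 2) * (1 / y ^ (4 * ε)) ≤ κ1 ^ 2 := by
      rw [mul_one_div, div_le_iff₀ hyε]
      rw [div_le_iff₀ (by positivity)] at h3
      linarith
    calc H * X ^ (-(1 / 2) - ε) * (Cd * (2 * X) ^ (ε / 2)) * (144 * Q ^ 2 * R ^ 2)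
        = H * (144 * Q ^ 2 * Cd * 2 ^ (ε / 2) *
            (X ^ (-(1 / 2) - ε) * (X ^ (ε / 2) * R ^ 2))) := by
          rw [e2]; ring
      _ = H * (144 * Q ^ 2 * Cd * 2 ^ (ε / 2) * (1 / y ^ (4 * ε))) := by rw [e3, e4]
      _ ≤ H * κ1 ^ 2 := mul_le_mul_of_nonneg_left h4 hH0.le
      _ = κ1 ^ 2 * H := by ring
  · intro d hdS
    obtain ⟨x, hx, hxd⟩ := Finset.mem_image.1 hdS
    obtain ⟨hxT, hgood⟩ := Finset.mem_filter.1 hx
    obtain ⟨h1, h2, h3, h4⟩ := hmem x hxT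
    have hv : H₀ < ((a' + Q * x.2 : ℕ) : ℤ) := by
      have h5 : (H₀ : ℝ) < ((a' + Q * x.2 : ℕ) : ℝ) := by
        refine lt_of_lt_of_le ?_ h1
        have h6 : |(H₀ : ℝ)| / κ1 < y := by linarith
        rw [div_lt_iff₀ hκ1] at h6
        have := le_abs_self (H₀ : ℝ)
        linarith
      exact_mod_cast h5
    obtain ⟨d', hd'1, hd'2, hd'3, hd'4⟩ := arith (A := A) (B := B) (M := M) (Q := Q) (W := W)
      (m := 0) (a := a) (a' := a') hQ hMQ (dvd_zero Q) ha'cop ha'M hQW' hH (i := x.1) (l := x.2)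
      hgood (hPpos x hxT) hv
    have hdd : d = d' := by
      have : ((d : ℕ) : ℤ) = d' := by
        rw [hd'1, ← hxd]
        exact Int.toNat_of_nonneg (hPpos x hxT).le
      exact_mod_cast this
    subst hdd
    have h5 : (d : ℝ) = (PZ A' B' 0 (1 + Q * x.1) (a' + Q * x.2) : ℝ) := by
      exact_mod_cast hd'1
    refine ⟨hd'2, hd'3, ?_, ?_, hd'4⟩
    · rw [h5]; exact h3
    · rw [h5]; exact h4

end Pool.Agent.TH861.TW
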